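import Pool.Agent.Lib.MP_1a91b9_ntQ.M.Ker

/-!
# MP_1a91b9_nt (quadratic twists of a fixed curve), part M: principal submatrices

Reindexing a matrix, and the removal of one row and the same column of a symmetric matrix with a
given vector in its kernel.
-/

set_option autoImplicit false
set_option linter.unusedSectionVars false

namespace Pool.Agent.Lib.MP_1a91b9_ntQ.M

open Finset Pool.Agent.Lib.MP_1a91b9_ntH Pool.Agent.Lib.MP_1a91b9_ntQ.Da

noncomputable section

variable {I J : Type} [Fintype I] [DecidableEq I] [Fintype J] [DecidableEq J]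

/-- Reindexing. -/
theorem kcd_bij (A : Matrix I I (ZMod 2)) {φ : J → I} (hφ : Function.Bijective φ) :
    kcd (A.submatrix φ φ) = kcd A := by
  obtain ⟨e, rfl⟩ : ∃ e : J ≃ I, (e : J → I) = φ := ⟨Equiv.ofBijective φ hφ, rfl⟩
  unfold kcd
  refine Fintype.card_congr ⟨fun v => ⟨v.1 ∘ e.symm, ?_⟩, fun v => ⟨v.1 ∘ e, ?_⟩,
    fun v => ?_, fun v => ?_⟩
  · have h1 := v.2
    rw [Matrix.submatrix_mulVec_equiv] at h1
    funext i
    have h2 := congrFun h1 (e.symm i)
    simp only [Function.comp_apply, Equiv.apply_symm_apply] at h2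
    exact h2
  · rw [Matrix.submatrix_mulVec_equiv]
    have h1 : (v.1 ∘ e) ∘ e.symm = v.1 := by
      funext i
      simp
    rw [h1, v.2]
    rfl
  · apply Subtype.ext
    funext j
    simp
  · apply Subtype.ext
    funext j
    simp

/-- The minor of a symmetric matrix with the vector `u` in its kernel. -/
theorem kcd_minor {A : Matrix I I (ZMod 2)} (hs : ∀ i j, A i j = A j i) {u : I → ZMod 2}
    (hu0 : A.mulVec u = 0) {i0 : I} (hi : u i0 = 1) {φ : J → I} (hφ : Function.Injective φ)
    (hr : ∀ i, (∃ j, φ j = i) ↔ i ≠ i0) :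
    kcd (A.submatrix φ φ) = 1 ↔ ∀ w, A.mulVec w = 0 → w = 0 ∨ w = u := by
  classical
  have z2 : ∀ x : ZMod 2, x = 0 ∨ x = 1 := by decide
  have z3 : ∀ x : ZMod 2, x + x = 0 := z2_add_self
  -- sums over `I`
  have hsum : ∀ f : I → ZMod 2, ∑ i, f i = f i0 + ∑ j, f (φ j) := by
    intro f
    rw [← add_sum_erase univ f (mem_univ i0)]
    congr 1
    symm
    refine sum_bij (fun j _ => φ j) (fun j _ => ?_) (fun j _ j' _ h => hφ h) (fun i hi => ?_)
      fun j _ => rfl
    · exact mem_erase.2 ⟨(hr _).1 ⟨j, rfl⟩, mem_univ _⟩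
    · obtain ⟨j, hj⟩ := (hr i).2 (mem_erase.1 hi).1
      exact ⟨j, mem_univ _, hj⟩
  have hker : kcd (A.submatrix φ φ) = 1 ↔
      ∀ x : J → ZMod 2, (A.submatrix φ φ).mulVec x = 0 → x = 0 := by
    unfold kcd
    rw [Fintype.card_eq_one_iff]
    constructor
    · rintro ⟨y, hy⟩ x hx
      have h1 := hy ⟨x, hx⟩
      have h2 := hy ⟨0, Matrix.mulVec_zero _⟩
      exact congrArg Subtype.val (h1.trans h2.symm)
    · intro h
      exact ⟨⟨0, Matrix.mulVec_zero _⟩, fun y => Subtype.ext (h y.1 y.2)⟩
  have hmul : ∀ (w : I → ZMod 2) (j : J), A.mulVec w (φ j) =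
      A (φ j) i0 * w i0 + (A.submatrix φ φ).mulVec (w ∘ φ) j := fun w j => by
    show ∑ i, A (φ j) i * w i = _
    rw [hsum]
    rfl
  rw [hker]
  constructor
  · intro h w hw
    have h1 : A.mulVec (w + w i0 • u) = 0 := by
      rw [Matrix.mulVec_add, Matrix.mulVec_smul, hw, hu0, smul_zero, add_zero]
    have h2 : (w + w i0 • u) i0 = 0 := by
      show w i0 + w i0 * u i0 = 0
      rw [hi, mul_one, z3]
    have h3 : (w + w i0 • u) ∘ φ = 0 := by
      refine h _ (funext fun j => ?_)
      have h4 := hmul (w + w i0 • u) j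
      rw [h1, h2, mul_zero, zero_add] at h4
      exact h4.symm
    have h4 : w + w i0 • u = 0 := by
      funext i
      by_cases hii : i = i0
      · rw [hii, h2]
        rfl
      · obtain ⟨j, rfl⟩ := (hr i).2 hii
        exact congrFun h3 j
    rcases z2 (w i0) with h5 | h5
    · left
      rw [h5, zero_smul, add_zero] at h4
      exact h4
    · right
      rw [h5, one_smul] at h4
      funext i
      have h6 := congrFun h4 i
      have h7 : ∀ a b : ZMod 2, a + b = 0 → a = b := by decide
      exact h7 _ _ h6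
  · intro h x hx
    -- the extension by zero
    obtain ⟨w, hw⟩ : ∃ w : I → ZMod 2, w = Function.extend φ x 0 := ⟨_, rfl⟩
    have hwφ : w ∘ φ = x := by
      funext j
      rw [hw]
      exact hφ.extend_apply x 0 j
    have hw0 : w i0 = 0 := by
      rw [hw, Function.extend_apply' x (0 : I → ZMod 2) i0]
      · rfl
      · rintro ⟨j, hj⟩
        exact (hr i0).1 ⟨j, hj⟩ rfl
    have h1 : ∀ j, A.mulVec w (φ j) = 0 := by
      intro j
      rw [hmul, hw0, mul_zero, zero_add, hwφ, hx]
      rfl
    have h2 : A.mulVec w i0 = 0 := by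
      have h3 : ∑ i, u i * A.mulVec w i = 0 := by
        have h4 : ∑ i, u i * A.mulVec w i = ∑ i, A.mulVec u i * w i := by
          show ∑ i, u i * ∑ j, A i j * w j = ∑ i, (∑ j, A i j * u j) * w i
          simp only [mul_sum, sum_mul]
          rw [sum_comm]
          refine sum_congr rfl fun i _ => sum_congr rfl fun j _ => ?_
          rw [hs j i]
          ring
        rw [h4, hu0]
        exact sum_eq_zero fun i _ => zero_mul _
      rw [hsum, hi, one_mul, sum_eq_zero, add_zero] at h3
      · exact h3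
      · intro j _
        rw [h1, mul_zero]
    have h3 : A.mulVec w = 0 := by
      funext i
      by_cases hii : i = i0
      · rw [hii, h2]
        rfl
      · obtain ⟨j, rfl⟩ := (hr i).2 hii
        exact h1 j
    rcases h w h3 with h4 | h4
    · rw [← hwφ, h4]
      rfl
    · rw [h4, hi] at hw0
      exact absurd hw0 one_ne_zero

end

end Pool.Agent.Lib.MP_1a91b9_ntQ.M
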