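import Pool.Agent.Lib.MP_1a91b9_ntQ.M.DenW
import Pool.Agent.Lib.MP_1a91b9_ntQ.B.GdDen

/-!
# MP_1a91b9_nt (quadratic twists of a fixed curve), part M: the good sets `B`

For fixed `k`, `j`, `S`, `T` (not a square) the matrices of the criterion `GdB k j S T B` are those of
the part `MatW`; so the good sets `B` have density `cinf2` in every class of every finite abelian
group which determines `DDq B` modulo `lam ^ 7`.
-/

set_option autoImplicit false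
set_option linter.unusedSectionVars false

namespace Pool.Agent.Lib.MP_1a91b9_ntQ.M

open NumberField Finset
open Pool.Agent.Lib.MP_1a91b9_ntH (PS nm Sx mem_Sx)

noncomputable section

/-! ### The symbols -/

theorem dB_split (k : ZMod 4) (j : Fin 4) (S T B : Finset Pg) :
    dB k j S T B = dB k j S T ∅ * DDq B ^ 2 := by
  unfold dB cB
  rw [DDq_empty]
  ring

/-- The half of the symbol of the fixed part. -/
def rh0 (k : ZMod 4) (j : Fin 4) (S T : Finset Pg) (b : Pg) : ZMod 2 :=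
  hf4 (c4 b (dB k j S T ∅))

theorem md_ncast (n : ℕ) : md ((n : ℕ) : ZMod 4) = (n : ZMod 2) := map_natCast md n

section

variable {k : ZMod 4} {j : Fin 4} {S T : Finset Pg} {b : Pg}

theorem nd_dB0 (hb : b ∉ S ∪ T) : ¬ b.1 ∣ dB k j S T ∅ := by
  have hS : b ∉ S := fun h => hb (mem_union_left _ h)
  have hT : b ∉ T := fun h => hb (mem_union_right _ h)
  intro hd
  unfold dB cB at hd
  rw [DDq_empty, one_pow, mul_one] at hd
  rcases b.prime.dvd_or_dvd hd with hd | hd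
  · rcases b.prime.dvd_or_dvd hd with hd | hd
    · exact nd_iO_pow b _ hd
    · exact nd_lamP b (b.prime.dvd_of_dvd_pow hd)
  · rcases b.prime.dvd_or_dvd hd with hd | hd
    · exact hS (dvd_DDq.1 hd)
    · exact hT (dvd_DDq.1 (b.prime.dvd_of_dvd_pow hd))

theorem md_dB0 (hST : Disjoint S T) (hb : b ∉ S ∪ T) :
    md (c4 b (dB k j S T ∅)) = ∑ p ∈ S ∪ T, s4 b p + kxB k j b := by
  have hS : b ∉ S := fun h => hb (mem_union_left _ h)
  have hT : b ∉ T := fun h => hb (mem_union_right _ h)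
  have n1 : ¬ b.1 ∣ iO := fun h => nd_iO_pow b 1 (by rwa [pow_one])
  have n2 : ¬ b.1 ∣ iO ^ k.val := nd_iO_pow b _
  have n3 : ¬ b.1 ∣ lam ^ j.val := fun h => nd_lamP b (b.prime.dvd_of_dvd_pow h)
  have n4 : ¬ b.1 ∣ DDq S := fun h => hS (dvd_DDq.1 h)
  have n5 : ¬ b.1 ∣ DDq T := fun h => hT (dvd_DDq.1 h)
  have n6 : ¬ b.1 ∣ DDq T ^ 3 := fun h => n5 (b.prime.dvd_of_dvd_pow h)
  have n7 : ¬ b.1 ∣ iO ^ k.val * lam ^ j.val := fun h => (b.prime.dvd_or_dvd h).elim n2 n3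
  have n8 : ¬ b.1 ∣ DDq S * DDq T ^ 3 := fun h => (b.prime.dvd_or_dvd h).elim n4 n6
  have e : dB k j S T ∅ = (iO ^ k.val * lam ^ j.val) * (DDq S * DDq T ^ 3) := by
    unfold dB cB
    rw [DDq_empty, one_pow, mul_one]
  have hk : ((k.val : ℕ) : ZMod 4) = k := ZMod.natCast_zmod_val k
  have h3 : ∀ x : ZMod 2, 3 * x = x := by decide
  have h3' : md 3 = 1 := rfl
  have hl : md (c4 b lam) = bb b.1 := c2_lam b
  have hi : md (nn b.1) = aa b.1 := rfl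
  rw [e, c4_mul b n7 n8, c4_mul b n2 n3, c4_mul b n4 n6, c4_pow b n1, c4_pow b (nd_lamP b),
    c4_pow b n5, c4_i, c4_DDq b hS, c4_DDq b hT, hk]
  simp only [map_add, map_mul, map_sum, md_ncast, hl, hi]
  rw [sum_union hST]
  have h5 : ((3 : ℕ) : ZMod 2) = 1 := rfl
  rw [h5, one_mul]
  unfold kxB
  show _ = ∑ p ∈ S, md (c4 b p.1) + ∑ p ∈ T, md (c4 b p.1) + _
  ring

theorem ex1_kvB (k : ZMod 4) (j : Fin 4) (F : Finset Pg) (b : Pg) :
    d4.ex1 F (kvB k j) b = ∑ p ∈ F, s4 b p + kxB k j b := by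
  unfold Dat2.ex1
  rw [Fin.sum_univ_two, add_comm]
  rfl

theorem VB_eq (k : ZMod 4) (j : Fin 4) (S T B : Finset Pg) :
    VB k j S T B = Va d4 (kvB k j) (S ∪ T) B := by
  unfold VB Va
  refine filter_congr fun b _ => ?_
  rw [ex1_kvB]

theorem hf4_add : ∀ x y : ZMod 4, md x = 0 → hf4 (x + 2 * y) = hf4 x + md y := by decide

theorem rhB_eq' (hST : Disjoint S T) {B : Finset Pg} (hB : Disjoint B (S ∪ T))
    (hb : b ∈ VB k j S T B) : rhB k j S T B b = ta d4 (rh0 k j S T) B b := by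
  obtain ⟨hbB, h1⟩ := mem_filter.1 hb
  have hbF : b ∉ S ∪ T := disjoint_left.1 hB hbB
  have hbe : b ∉ B.erase b := notMem_erase b B
  have n1 : ¬ b.1 ∣ DDq (B.erase b) := fun h => hbe (dvd_DDq.1 h)
  have n2 : ¬ b.1 ∣ DDq (B.erase b) ^ 2 := fun h => n1 (b.prime.dvd_of_dvd_pow h)
  have h2 : md (c4 b (dB k j S T ∅)) = 0 := by rw [md_dB0 hST hbF, h1]
  unfold rhB ta rh0
  rw [dB_split, c4_mul b (nd_dB0 hbF) n2, c4_pow b n1]
  have h3 : (((2 : ℕ) : ZMod 4)) = 2 := rfl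
  rw [h3, hf4_add _ _ h2, c4_DDq b hbe, map_sum]
  rfl

end

/-! ### The matrices -/

section

variable {k : ZMod 4} {j : Fin 4} {S T B : Finset Pg}

theorem nbW0 (hST : Disjoint S T) (hB : Disjoint B (S ∪ T)) :
    (DetB0 k j S T B ↔ (d4.NV (kvB k j) (Da.P0 (Fin 2)) Da.R0 (Va d4 (kvB k j) (S ∪ T) B)
      (ta d4 (rh0 k j S T) B) (S ∪ T)).det ≠ 0) ∧
    (KerB0 k j S T B ↔ (S ∪ T).Nonempty ∧ ∀ w, (d4.NV (kvB k j) (Da.P0 (Fin 2)) Da.R0
      (Va d4 (kvB k j) (S ∪ T) B) (ta d4 (rh0 k j S T) B) (S ∪ T)).mulVec w = 0 →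
        w = 0 ∨ w = Sum.elim (fun _ => 1) (Sum.elim (fun _ => 0) 0)) := by
  have hτ : ∀ v ∈ Va d4 (kvB k j) (S ∪ T) B, rhB k j S T B v = ta d4 (rh0 k j S T) B v := by
    intro v hv
    rw [← VB_eq] at hv
    exact rhB_eq' hST hB hv
  unfold DetB0 KerB0 NB0
  rw [VB_eq k j S T B, NV_congr _ _ _ _ hτ]
  exact ⟨Iff.rfl, Iff.rfl⟩

theorem nbW1 (hST : Disjoint S T) (hB : Disjoint B (S ∪ T)) (p : Fin 2 → ZMod 2) (x : ZMod 2) :
    (DetB1 k j p x S T B ↔ (d4.NV (kvB k j) (PpB p) (Da.R1 x) (Va d4 (kvB k j) (S ∪ T) B)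
      (ta d4 (rh0 k j S T) B) (S ∪ T)).det ≠ 0) ∧
    (KerB1 k j p x S T B ↔ (S ∪ T).Nonempty ∧ ∀ w, (d4.NV (kvB k j) (PpB p) (Da.R1 x)
      (Va d4 (kvB k j) (S ∪ T) B) (ta d4 (rh0 k j S T) B) (S ∪ T)).mulVec w = 0 →
        w = 0 ∨ w = Sum.elim (fun _ => 1) (Sum.elim (fun _ => 0) 0)) := by
  have hτ : ∀ v ∈ Va d4 (kvB k j) (S ∪ T) B, rhB k j S T B v = ta d4 (rh0 k j S T) B v := by
    intro v hv
    rw [← VB_eq] at hv
    exact rhB_eq' hST hB hv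
  unfold DetB1 KerB1 NB1
  rw [VB_eq k j S T B, NV_congr _ _ _ _ hτ]
  exact ⟨Iff.rfl, Iff.rfl⟩

end

/-! ### The data which only depend on `DDq B` modulo `lam ^ 7` -/

section

variable {S T B B' : Finset Pg}

theorem dvd_cBW (h : lam ^ 7 ∣ DDq B - DDq B') : lam ^ 7 ∣ cB S T B - cB S T B' := by
  obtain ⟨t, ht⟩ := h
  refine ⟨t * (DDq S * DDq T ^ 3 * (DDq B + DDq B')), ?_⟩
  unfold cB
  linear_combination (DDq S * DDq T ^ 3 * (DDq B + DDq B')) * ht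

theorem aa_W (S T B B' : Finset Pg) : aa (cB S T B) = aa (cB S T B') := by
  rw [aa_cBs, aa_cBs]

theorem bb_W (S T B B' : Finset Pg) : bb (cB S T B) = bb (cB S T B') := by
  rw [bb_cBs, bb_cBs]

theorem nn_W (h : lam ^ 7 ∣ DDq B - DDq B') : nn (cB S T B) = nn (cB S T B') :=
  nn_congr6 (inCB S T B) ((pow_dvd_pow lam (by norm_num)).trans (dvd_cBW h))

theorem mn_W (h : lam ^ 7 ∣ DDq B - DDq B') : mmB (cB S T B) = mmB (cB S T B') ∧
    nnB (cB S T B) = nnB (cB S T B') := by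
  obtain ⟨a, b, k, l, h1, h2⟩ := form_congr (e := 4) (inCB S T B) (dvd_lam7 (dvd_cBW h))
  rw [h1, h2, mmB_fm, mmB_fm, nnB_fm, nnB_fm]
  push_cast
  have h4 : (4 : ZMod 4) = 0 := rfl
  rw [h4, zero_mul, zero_mul, add_zero, add_zero]
  exact ⟨rfl, rfl⟩

theorem ll_W (h : lam ^ 7 ∣ DDq B - DDq B') : llB (cB S T B) = llB (cB S T B') := by
  unfold llB
  rw [(mn_W h).1, (mn_W h).2]

end

/-! ### Both densities -/

section

variable {G : Type} [AddCommGroup G] [Fintype G]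

open Classical in
/-- The sets with the property `Q` have density `cinf2`. -/
def TwoW (F : Finset Pg) (cl : Pg → G) (γ : G) (Q : Finset Pg → Prop) : Prop :=
  (∀ κ₀ : ℝ, κ₀ < Da.cinf2 → ∀ ε : ℝ, 0 < ε → ∃ X₀ : ℕ, ∀ X : ℕ, X₀ ≤ X →
    κ₀ * ((Da.SB F cl γ X).card : ℝ) - ε * X ≤ ((Da.SB F cl γ X).filter Q).card) ∧
  ∀ κ₀ : ℝ, Da.cinf2 < κ₀ → ∀ ε : ℝ, 0 < ε → ∃ X₀ : ℕ, ∀ X : ℕ, X₀ ≤ X →
    (((Da.SB F cl γ X).filter Q).card : ℝ) ≤ κ₀ * ((Da.SB F cl γ X).card : ℝ) + ε * X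

theorem twoW_of {F : Finset Pg} {cl : Pg → G} {γ : G} {Q Q' : Finset Pg → Prop}
    [DecidablePred Q]
    (h1 : ∀ κ₀ : ℝ, κ₀ < Da.cinf2 → ∀ ε : ℝ, 0 < ε → ∃ X₀ : ℕ, ∀ X : ℕ, X₀ ≤ X →
      κ₀ * ((Da.SB F cl γ X).card : ℝ) - ε * X ≤ ((Da.SB F cl γ X).filter Q).card)
    (h2 : ∀ κ₀ : ℝ, Da.cinf2 < κ₀ → ∀ ε : ℝ, 0 < ε → ∃ X₀ : ℕ, ∀ X : ℕ, X₀ ≤ X →
      (((Da.SB F cl γ X).filter Q).card : ℝ) ≤ κ₀ * ((Da.SB F cl γ X).card : ℝ) + ε * X)
    (hQ : ∀ B, Disjoint B F → ∑ q ∈ B, cl q = γ → (Q' B ↔ Q B)) : TwoW F cl γ Q' := by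
  classical
  have e : ∀ X : ℕ, (Da.SB F cl γ X).filter Q' = (Da.SB F cl γ X).filter Q := fun X =>
    filter_congr fun B hB => hQ B (Da.mem_SB.1 hB).2.1 (Da.mem_SB.1 hB).2.2
  unfold TwoW
  simp only [e]
  exact ⟨h1, h2⟩

theorem TwoW.congr {F : Finset Pg} {cl : Pg → G} {γ : G} {Q Q' : Finset Pg → Prop}
    (h : TwoW F cl γ Q)
    (hQ : ∀ B, Disjoint B F → ∑ q ∈ B, cl q = γ → (Q' B ↔ Q B)) : TwoW F cl γ Q' := by
  classical
  exact twoW_of h.1 h.2 hQ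

/-- The empty classes. -/
theorem TwoW.of_empty {F : Finset Pg} {cl : Pg → G} {γ : G} {Q : Finset Pg → Prop}
    (h : ¬ ∃ B : Finset Pg, Disjoint B F ∧ ∑ q ∈ B, cl q = γ) : TwoW F cl γ Q := by
  classical
  have e : ∀ X : ℕ, Da.SB F cl γ X = ∅ := fun X => by
    rw [eq_empty_iff_forall_notMem]
    exact fun B hB => h ⟨B, (Da.mem_SB.1 hB).2.1, (Da.mem_SB.1 hB).2.2⟩
  unfold TwoW
  simp only [e, filter_empty, card_empty, Nat.cast_zero, mul_zero, zero_sub, zero_add]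
  exact ⟨fun κ₀ _ ε hε => ⟨0, fun X _ => by
    have : (0 : ℝ) ≤ ε * X := by positivity
    linarith⟩, fun κ₀ _ ε hε => ⟨0, fun X _ => by positivity⟩⟩

variable {E : Type} [Fintype E] [DecidableEq E] {c : Fin 2 → ZMod 2} {P : Fin 2 → E → ZMod 2}
  {R : Matrix E E (ZMod 2)} {F : Finset Pg}

theorem twoW_ne (hE : EngW d4 c F) (hR : ∀ e f, R e f = R f e)
    (hP : ∀ x : E → ZMod 2, (∀ j, ∑ e, P j e * x e = 0) → x = 0)
    (hc : ¬ ∃ γ : E → ZMod 2, ∀ j, ∑ e, P j e * γ e = c j) (ρ : Pg → ZMod 2) (cl : Pg → G)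
    (γ : G) :
    TwoW F cl γ fun B => (d4.NV c P R (Va d4 c F B) (ta d4 ρ B) F).det ≠ 0 := by
  exact twoW_of (fun κ₀ hκ => densW_ne_lower d4_sym hE hR hP hc ρ cl γ hκ)
    (fun κ₀ hκ => densW_ne_upper d4_sym hE hR hP hc ρ cl γ hκ) fun B _ _ => Iff.rfl

theorem twoW_ker (hc : c = 0) (hE : EngW d4 c F) (hR : ∀ e f, R e f = R f e)
    (hP : ∀ x : E → ZMod 2, (∀ j, ∑ e, P j e * x e = 0) → x = 0) (hF : F.Nonempty)
    (h0 : ∀ e, ∑ t ∈ F, d4.bd P t e = 0) (ρ : Pg → ZMod 2) (cl : Pg → G) (γ : G) :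
    TwoW F cl γ fun B => F.Nonempty ∧ ∀ w,
      (d4.NV c P R (Va d4 c F B) (ta d4 ρ B) F).mulVec w = 0 →
        w = 0 ∨ w = Sum.elim (fun _ => 1) (Sum.elim (fun _ => 0) 0) := by
  subst hc
  exact twoW_of (fun κ₀ hκ => densW_ker_lower (R := R) d4_sym hE hR hP hF h0 ρ cl γ hκ)
    (fun κ₀ hκ => densW_ker_upper (R := R) d4_sym hE hR hP hF h0 ρ cl γ hκ)
    fun B _ _ => ⟨fun h => h.2, fun h => ⟨hF, h⟩⟩

/-- **The good sets `B`, all classes**: both densities. -/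
theorem gdW_two {k : ZMod 4} {j : Fin 4} {S T : Finset Pg} (hST : Disjoint S T)
    (hns : kvB k j ≠ 0 ∨ (S ∪ T).Nonempty) (hE : EngW d4 (kvB k j) (S ∪ T)) (cl : Pg → G) (γ : G)
    (hcl : ∀ B B' : Finset Pg, Disjoint B (S ∪ T) → Disjoint B' (S ∪ T) →
      ∑ q ∈ B, cl q = γ → ∑ q ∈ B', cl q = γ → lam ^ 7 ∣ DDq B - DDq B') :
    TwoW (S ∪ T) cl γ fun B => GdB k j S T B := by
  by_cases hB : ∃ B : Finset Pg, Disjoint B (S ∪ T) ∧ ∑ q ∈ B, cl q = γ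
  swap
  · exact TwoW.of_empty hB
  obtain ⟨B', hB', hg⟩ := hB
  have h2 : ∀ x : ZMod 2, x = 0 ∨ x = 1 := by decide
  have d0 : ∀ (k : ZMod 4) (j : Fin 4), EngW d4 (kvB k j) (S ∪ T) → kvB k j ≠ 0 →
      (∀ B, GdB k j S T B ↔ DetB0 k j S T B) → TwoW (S ∪ T) cl γ fun B => GdB k j S T B := by
    intro k j hE hc h
    refine (twoW_ne (P := Da.P0 (Fin 2)) (R := Da.R0) hE (fun e _ => e.elim)
      (fun x _ => funext fun e => e.elim) ?_ (rh0 k j S T) cl γ).congr fun B h3 _ => ?_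
    · rintro ⟨γ, h1⟩
      refine hc (funext fun i => ?_)
      rw [← h1 i]
      rfl
    · rw [h B, (nbW0 hST h3).1]
  have k0 : ∀ (k : ZMod 4) (j : Fin 4), EngW d4 (kvB k j) (S ∪ T) → (S ∪ T).Nonempty →
      kvB k j = 0 →
      (∀ B, lam ^ 7 ∣ DDq B - DDq B' → (GdB k j S T B ↔ KerB0 k j S T B)) →
      TwoW (S ∪ T) cl γ fun B => GdB k j S T B := by
    intro k j hE hF hc h
    refine (twoW_ker (P := Da.P0 (Fin 2)) (R := Da.R0) hc hE (fun e _ => e.elim)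
      (fun x _ => funext fun e => e.elim) hF (fun e => e.elim) (rh0 k j S T) cl γ).congr
        fun B h3 h4 => ?_
    rw [h B (hcl B B' h3 hB' h4 hg), (nbW0 hST h3).2]
  have d1 : ∀ (k : ZMod 4) (j : Fin 4) (p : Fin 2 → ZMod 2) (x : ZMod 2),
      EngW d4 (kvB k j) (S ∪ T) → (∃ i, p i = 1) → (∃ i, p i = 0 ∧ kvB k j i ≠ 0) →
      (∀ B, lam ^ 7 ∣ DDq B - DDq B' → (GdB k j S T B ↔ DetB1 k j p x S T B)) →
      TwoW (S ∪ T) cl γ fun B => GdB k j S T B := by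
    intro k j p x hE hp hc h
    refine (twoW_ne (P := PpB p) (R := Da.R1 x) hE (fun _ _ => rfl)
      (PpB_inj hp) ?_ (rh0 k j S T) cl γ).congr fun B h3 h4 => ?_
    · rintro ⟨γ, h1⟩
      obtain ⟨i, hi, hi2⟩ := hc
      refine hi2 ?_
      rw [← h1 i, Fintype.sum_unique]
      show p i * _ = 0
      rw [hi, zero_mul]
    · rw [h B (hcl B B' h3 hB' h4 hg), (nbW1 hST h3 p x).1]
  have k1 : ∀ (k : ZMod 4) (j : Fin 4) (p : Fin 2 → ZMod 2) (x : ZMod 2),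
      EngW d4 (kvB k j) (S ∪ T) → (S ∪ T).Nonempty → (∃ i, p i = 1) →
      kvB k j = 0 → p 0 * aa (cB S T B') + p 1 * bb (cB S T B') = 0 →
      (∀ B, lam ^ 7 ∣ DDq B - DDq B' → (GdB k j S T B ↔ KerB1 k j p x S T B)) →
      TwoW (S ∪ T) cl γ fun B => GdB k j S T B := by
    intro k j p x hE hF hp hc h0 h
    refine (twoW_ker (P := PpB p) (R := Da.R1 x) hc hE (fun _ _ => rfl)
      (PpB_inj hp) hF (fun e => ?_) (rh0 k j S T) cl γ).congr fun B h3 h4 => ?_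
    · rw [aa_cBs, bb_cBs, ← sum_union hST, ← sum_union hST, mul_sum, mul_sum,
        ← sum_add_distrib] at h0
      rw [← h0]
      refine sum_congr rfl fun t _ => ?_
      unfold Dat2.bd
      rw [Fin.sum_univ_two]
      rfl
    · rw [h B (hcl B B' h3 hB' h4 hg), (nbW1 hST h3 p x).2]
  have hFn : kvB k j = 0 → (S ∪ T).Nonempty := fun h => hns.resolve_left fun h' => h' h
  have p10 : ∃ i, (![1, 0] : Fin 2 → ZMod 2) i = 1 := ⟨0, rfl⟩
  have p01 : ∃ i, (![0, 1] : Fin 2 → ZMod 2) i = 1 := ⟨1, rfl⟩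
  have p11 : ∃ i, (![1, 1] : Fin 2 → ZMod 2) i = 1 := ⟨0, rfl⟩
  have q10 : ∀ a b : ZMod 2, a = 0 →
      (![1, 0] : Fin 2 → ZMod 2) 0 * a + (![1, 0] : Fin 2 → ZMod 2) 1 * b = 0 := by decide
  have q01 : ∀ a b : ZMod 2, b = 0 →
      (![0, 1] : Fin 2 → ZMod 2) 0 * a + (![0, 1] : Fin 2 → ZMod 2) 1 * b = 0 := by decide
  have q11 : ∀ a b : ZMod 2, a + b = 0 →
      (![1, 1] : Fin 2 → ZMod 2) 0 * a + (![1, 1] : Fin 2 → ZMod 2) 1 * b = 0 := by decide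
  have hj : ∀ j : Fin 4, j = 0 ∨ j = 1 ∨ j = 2 ∨ j = 3 := by decide
  have hk4 : ∀ k : ZMod 4, k = 0 ∨ k = 1 ∨ k = 2 ∨ k = 3 := by decide
  have k00 : kvB 0 0 = 0 := by decide
  have k20 : kvB 2 0 = 0 := by decide
  have k02 : kvB 0 2 = 0 := by decide
  have k22 : kvB 2 2 = 0 := by decide
  rcases hj j with rfl | rfl | rfl | rfl
  · rcases md_cases k with hk | rfl | rfl
    · refine d0 k 0 hE (fun h => ?_) fun B => gdB_c1 hk
      have h3 : md k = 0 := congrFun h 0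
      rw [hk] at h3
      exact one_ne_zero h3
    · rcases h2 (aa (cB S T B')) with hA | hA
      · rcases h2 (hf4 (nn (cB S T B')) + bb (cB S T B')) with hB | hB
        · refine k1 0 0 ![1, 0] (xl4 (llB (cB S T B'))) hE (hFn k00) p10 k00 (q10 _ _ hA)
            fun B h => ?_
          rw [gdB_x3 ((aa_W S T B B').trans hA) (by rw [nn_W h, bb_W S T B B', hB]), ll_W h]
        · refine k0 0 0 hE (hFn k00) k00 fun B h => ?_
          exact gdB_x2 ((aa_W S T B B').trans hA) (by rw [nn_W h, bb_W S T B B', hB])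
      · exact k0 0 0 hE (hFn k00) k00 fun B h => gdB_c2 (by decide) ((aa_W S T B B').trans hA)
    · rcases h2 (aa (cB S T B')) with hA | hA
      · refine k1 2 0 ![1, 0] (hf4 (nn (cB S T B'))) hE (hFn k20) p10 k20 (q10 _ _ hA)
          fun B h => ?_
        rw [gdB_x1 ((aa_W S T B B').trans hA), nn_W h]
      · exact k0 2 0 hE (hFn k20) k20 fun B h => gdB_c2 (by decide) ((aa_W S T B B').trans hA)
  · exact d1 k 1 ![1, 0] (xk4 k) hE p10 ⟨1, rfl, by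
      show (((1 : Fin 4).val : ℕ) : ZMod 2) ≠ 0
      decide⟩ fun B _ => gdB_e
  · rcases hk4 k with rfl | rfl | rfl | rfl
    · rcases h2 (bb (cB S T B')) with hA | hA
      · refine k1 0 2 ![0, 1] (uB0 (mmB (cB S T B')) (nnB (cB S T B'))) hE (hFn k02) p01 k02
          (q01 _ _ hA) fun B h => ?_
        rw [gdB_d20 ((bb_W S T B B').trans hA), (mn_W h).1, (mn_W h).2]
      · exact k0 0 2 hE (hFn k02) k02 fun B h => gdB_c20 ((bb_W S T B B').trans hA)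
    · exact d0 1 2 hE (by decide) fun B => gdB_a2
    · rcases h2 (aa (cB S T B') + bb (cB S T B')) with hA | hA
      · refine k1 2 2 ![1, 1] (uB2 (mmB (cB S T B')) (nnB (cB S T B'))) hE (hFn k22) p11 k22
          (q11 _ _ hA) fun B h => ?_
        rw [gdB_d22 (by rw [aa_W S T B B', bb_W S T B B', hA]), (mn_W h).1, (mn_W h).2]
      · exact k0 2 2 hE (hFn k22) k22 fun B h =>
          gdB_c22 (by rw [aa_W S T B B', bb_W S T B B', hA])
    · refine d1 3 2 ![0, 1] (uB3 (mmB (cB S T B')) (nnB (cB S T B'))) hE p01 ⟨0, rfl, by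
        decide⟩ fun B h => ?_
      rw [gdB_b2, (mn_W h).1, (mn_W h).2]
  · refine d0 k 3 hE (fun h => ?_) fun B => gdB_j3
    have h3 : (((3 : Fin 4).val : ℕ) : ZMod 2) = 0 := congrFun h 1
    exact absurd h3 (by decide)

end

end

end Pool.Agent.Lib.MP_1a91b9_ntQ.M
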