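import Pool.Agent.Lib.MP_1a91b9_ntQ.M.Off
import Pool.Agent.Lib.MP_1a91b9_ntQ.M.GdW

/-!
# MP_1a91b9_nt (quadratic twists of a fixed curve), part M: the criterion in a class

`P` is a finite set of primes which contains `S`, `T` and `B`; `X` runs over the sets of primes outside
`P`. In every class of `GB m P`, `m ≥ 2`, the criterion for `dB k j S T (B ∪ X)` says that a matrix over
the active primes of `X` and a fixed border is nonsingular: `detC0`, `detC1`, `kerC0`, `kerC1`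
(explicit forms), `gdC` (all the classes). The border is independent modulo the activity character.
-/

set_option autoImplicit false
set_option linter.unusedSectionVars false

namespace Pool.Agent.Lib.MP_1a91b9_ntQ.M

open NumberField Finset
open Pool.Agent.Lib.MP_1a91b9_ntH (PS nm Sx mem_Sx)

noncomputable section

/-! ### Generalities -/

section

variable {ι : Type} [DecidableEq ι] {κ : Type} [Fintype κ] [DecidableEq κ] {E E' : Type}
  [Fintype E] [DecidableEq E] [Fintype E'] [DecidableEq E']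

/-- The matrix with a reindexed border. -/
theorem kW_reidx (D : Dat2 ι κ) (c : κ → ZMod 2) (P : κ → E → ZMod 2) (R : Matrix E E (ZMod 2))
    (ρ : ι → ZMod 2) (F B : Finset ι) (e : E' ≃ E) :
    kW D c (fun j x => P j (e x)) (R.submatrix e e) ρ F B = kW D c P R ρ F B := by
  unfold kW
  have h : D.NV c (fun j x => P j (e x)) (R.submatrix e e) (Va D c F B) (ta D ρ B) F =
      (D.NV c P R (Va D c F B) (ta D ρ B) F).submatrix (Sum.map id (Sum.map id e))
        (Sum.map id (Sum.map id e)) := by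
    ext i j
    rcases i with i | v | x <;> rcases j with j | v' | x' <;> rfl
  rw [h]
  refine kcd_bij _ ⟨?_, ?_⟩
  · exact Function.Injective.sumMap Function.injective_id
      (Function.Injective.sumMap Function.injective_id e.injective)
  · exact Function.Surjective.sumMap Function.surjective_id
      (Function.Surjective.sumMap Function.surjective_id e.surjective)

/-- The matrix only depends on the values of `ρ` at the active primes. -/
theorem kW_congr (D : Dat2 ι κ) (c : κ → ZMod 2) (P : κ → E → ZMod 2) (R : Matrix E E (ZMod 2))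
    {ρ ρ' : ι → ZMod 2} (F B : Finset ι) (h : ∀ q ∈ Va D c F B, ρ q = ρ' q) :
    kW D c P R ρ F B = kW D c P R ρ' F B := by
  unfold kW
  congr 1
  unfold Dat2.NV
  congr 2
  funext v v'
  show (if v = v' then ta D ρ B v else _) = if v = v' then ta D ρ' B v else _
  unfold ta
  rw [h v v.2]

theorem u_mem {D : Dat2 ι κ} (hs : D.Sym) {F B : Finset ι} (hB : Disjoint B F)
    {P : κ → E → ZMod 2} (R : Matrix E E (ZMod 2)) (τ : ι → ZMod 2)
    (h0 : ∀ e, ∑ t ∈ F, D.bd P t e = 0) :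
    (D.NV 0 P R (Va D 0 F B) τ F).mulVec (Sum.elim (fun _ => 1) (Sum.elim (fun _ => 0) 0)) =
      0 := by
  have hv : (Sum.elim (fun _ => 1) (Sum.elim (fun _ => 0) 0) : F ⊕ (Va D 0 F B ⊕ E) → ZMod 2) =
      vec3 F (Va D 0 F B) (fun _ => 1) 0 0 := rfl
  have h2 : ∀ x : ZMod 2, x + x = 0 := Da.z2_add_self
  rw [hv]
  funext i
  rcases i with t | v | e
  · rw [NV_inl]
    have h3 : D.dg (0 : κ → ZMod 2) t = 0 := by
      unfold Dat2.dg
      exact sum_eq_zero fun j _ => by rw [Pi.zero_apply, zero_mul]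
    simp [h3, h2]
  · rw [NV_inrl]
    have h3 := (mem_Va.1 v.2).2
    have hvB := (mem_Va.1 v.2).1
    have h4 : ∑ l ∈ F, D.s l v = 0 := by
      rw [Dat2.ex1] at h3
      have h5 : ∑ j, (0 : κ → ZMod 2) j * D.a (v : ι) j = 0 :=
        sum_eq_zero fun j _ => by rw [Pi.zero_apply, zero_mul]
      rw [h5, zero_add] at h3
      rw [← h3]
      exact sum_congr rfl fun l hl => hs _ _ fun h => disjoint_left.1 hB hvB (h ▸ hl)
    simp [h4]
  · rw [NV_inrr]
    simp [h0 e]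

end

/-! ### The independence of the border -/

section

variable {ι : Type} [DecidableEq ι] {κ : Type} [Fintype κ] [DecidableEq κ] {E : Type}
  [Fintype E] [DecidableEq E] {Q : Type} [Fintype Q] [DecidableEq Q] {P P0 V0 : Finset ι}

/-- The components of a relation. -/
theorem brd_rel (hP0 : P0 ⊆ P) (hV0 : V0 ⊆ P) (hd : Disjoint P0 V0) {r : Q → P0}
    (hr1 : Function.Injective r) {P1 : κ → E → ZMod 2} {c : κ → ZMod 2}
    {x : Q ⊕ (V0 ⊕ E) → ZMod 2} {t : ZMod 2}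
    (h : ∀ j, ∑ e, brd P V0 r P1 j e * x e = t * c0v P P0 c j) :
    (∀ i, ∑ e, P1 i e * x (Sum.inr (Sum.inr e)) = t * c i) ∧ (∀ y, x (Sum.inl y) = t) ∧
      (∀ v, x (Sum.inr (Sum.inl v)) = 0) ∧ ∀ p : P0, (¬ ∃ y, r y = p) → t = 0 := by
  have h1 : ∀ i, ∑ e, P1 i e * x (Sum.inr (Sum.inr e)) = t * c i := by
    intro i
    have h2 := h (Sum.inl i)
    unfold brd c0v at h2
    simp only [Fintype.sum_sum_type, Sum.elim_inl, Sum.elim_inr, zero_mul, sum_const_zero,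
      zero_add] at h2
    exact h2
  have h2 : ∀ b : P, ∑ y, (if (b : ι) = r y then (1 : ZMod 2) else 0) * x (Sum.inl y) +
      ∑ v : V0, (if (b : ι) = v then (1 : ZMod 2) else 0) * x (Sum.inr (Sum.inl v)) =
      t * if (b : ι) ∈ P0 then 1 else 0 := by
    intro b
    have h2 := h (Sum.inr b)
    unfold brd c0v at h2
    simp only [Fintype.sum_sum_type, Sum.elim_inl, Sum.elim_inr, zero_mul, sum_const_zero,
      add_zero] at h2
    exact h2
  refine ⟨h1, fun y => ?_, fun v => ?_, fun p hp => ?_⟩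
  · have h3 := h2 ⟨r y, hP0 (r y).2⟩
    dsimp only at h3
    rw [if_pos (r y).2, mul_one, sum_eq_single y, if_pos rfl, one_mul, sum_eq_zero,
      add_zero] at h3
    · exact h3
    · intro v _
      rw [if_neg, zero_mul]
      intro h4
      exact disjoint_left.1 hd (r y).2 (h4 ▸ v.2)
    · intro y' _ hy'
      rw [if_neg, zero_mul]
      intro h4
      exact hy' (hr1 (Subtype.ext h4)).symm
    · intro h4
      exact absurd (mem_univ _) h4
  · have h3 := h2 ⟨v, hV0 v.2⟩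
    dsimp only at h3
    have h5 : (v : ι) ∉ P0 := fun h4 => disjoint_left.1 hd h4 v.2
    rw [if_neg h5, mul_zero, sum_eq_zero (s := univ) (f := fun y =>
      (if (v : ι) = r y then (1 : ZMod 2) else 0) * x (Sum.inl y)), zero_add,
      sum_eq_single v, if_pos rfl, one_mul] at h3
    · exact h3
    · intro v' _ hv'
      rw [if_neg, zero_mul]
      intro h4
      exact hv' (Subtype.ext h4).symm
    · intro h4
      exact absurd (mem_univ _) h4
    · intro y _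
      rw [if_neg, zero_mul]
      intro h4
      exact h5 (h4 ▸ (r y).2)
  · have h3 := h2 ⟨p, hP0 p.2⟩
    dsimp only at h3
    rw [if_pos p.2, mul_one, sum_eq_zero, sum_eq_zero, add_zero] at h3
    · exact h3.symm
    · intro v _
      rw [if_neg, zero_mul]
      intro h4
      exact disjoint_left.1 hd p.2 (h4 ▸ v.2)
    · intro y _
      rw [if_neg, zero_mul]
      intro h4
      exact hp ⟨y, (Subtype.ext h4).symm⟩

/-- All the rows: independence from the border `P1` and one more class character. -/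
theorem brd_ind_id (hP0 : P0 ⊆ P) (hV0 : V0 ⊆ P) (hd : Disjoint P0 V0) {P1 : κ → E → ZMod 2}
    {c : κ → ZMod 2}
    (hI : ∀ (x : E → ZMod 2) (t : ZMod 2), (∀ j, ∑ e, P1 j e * x e = t * c j) → x = 0 ∧ t = 0)
    (x : P0 ⊕ (V0 ⊕ E) → ZMod 2) (t : ZMod 2)
    (h : ∀ j, ∑ e, brd P V0 (id : P0 → P0) P1 j e * x e = t * c0v P P0 c j) : x = 0 := by
  obtain ⟨h1, h2, h3, _⟩ := brd_rel hP0 hV0 hd Function.injective_id h
  obtain ⟨h5, h6⟩ := hI (fun e => x (Sum.inr (Sum.inr e))) t h1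
  funext i
  rcases i with y | v | e
  · rw [h2, h6]
    rfl
  · rw [h3]
    rfl
  · exact congrFun h5 e

/-- One row is missing. -/
theorem brd_ind_r (hP0 : P0 ⊆ P) (hV0 : V0 ⊆ P) (hd : Disjoint P0 V0) {p0 : P0} {r : Q → P0}
    (hr1 : Function.Injective r) (hr : ∀ p, (∃ x, r x = p) ↔ p ≠ p0) {P1 : κ → E → ZMod 2}
    {c : κ → ZMod 2} (hI : ∀ x : E → ZMod 2, (∀ j, ∑ e, P1 j e * x e = 0) → x = 0)
    (x : Q ⊕ (V0 ⊕ E) → ZMod 2) (t : ZMod 2)
    (h : ∀ j, ∑ e, brd P V0 r P1 j e * x e = t * c0v P P0 c j) : x = 0 := by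
  obtain ⟨h1, h2, h3, h4⟩ := brd_rel hP0 hV0 hd hr1 h
  have ht : t = 0 := h4 p0 fun h5 => (hr p0).1 h5 rfl
  have h5 := hI (fun e => x (Sum.inr (Sum.inr e))) fun j => by rw [h1, ht, zero_mul]
  funext i
  rcases i with y | v | e
  · rw [h2, ht]
    rfl
  · rw [h3]
    rfl
  · exact congrFun h5 e

theorem crn_symm {D : Dat2 ι κ} (hs : D.Sym) (c : κ → ZMod 2) {P1 : κ → E → ZMod 2}
    {R1 : Matrix E E (ZMod 2)} (hR : ∀ e f, R1 e f = R1 f e) (V0 : Finset ι) (τ0 : ι → ZMod 2)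
    (r : Q → P0) (x y : Q ⊕ (V0 ⊕ E)) : crn D c P1 R1 V0 τ0 r x y = crn D c P1 R1 V0 τ0 r y x := by
  have key : ∀ i j : P0 ⊕ (V0 ⊕ E), D.NV c P1 R1 V0 τ0 P0 i j = D.NV c P1 R1 V0 τ0 P0 j i := by
    intro i j
    rcases i with i | v | e
    · rcases j with j | v' | e'
      · show (if i = j then _ else D.s i j) = if j = i then _ else D.s j i
        by_cases h : i = j
        · subst h
          rfl
        · rw [if_neg h, if_neg fun h' => h h'.symm]
          exact hs _ _ fun h' => h (Subtype.ext h')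
      · rfl
      · rfl
    · rcases j with j | v' | e'
      · rfl
      · show (if v = v' then τ0 v else D.s v v') = if v' = v then τ0 v' else D.s v' v
        by_cases h : v = v'
        · subst h
          rfl
        · rw [if_neg h, if_neg fun h' => h h'.symm]
          exact hs _ _ fun h' => h (Subtype.ext h')
      · rfl
    · rcases j with j | v' | e'
      · rfl
      · rfl
      · exact hR e e'
  exact key _ _

end

/-! ### The diagonals -/

section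

variable {k : ZMod 4} {j : Fin 4} {S T B P : Finset Pg} {X : Finset (Off P)}

/-- The diagonal of the primes outside `P`. -/
def rhC (k : ZMod 4) (j : Fin 4) (S T B : Finset Pg) {P : Finset Pg} (q : Off P) : ZMod 2 :=
  rh0 k j S T q.1 + ∑ l ∈ B, s4 q.1 l

/-- The diagonal of the active primes of `B`, in the class of `X0`. -/
def taC (k : ZMod 4) (j : Fin 4) (S T B X0 : Finset Pg) (b : Pg) : ZMod 2 :=
  rh0 k j S T b + (∑ l ∈ B.erase b, s4 b l + ∑ q ∈ X0, s4 b q)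

theorem disj_BX (hd : Dj S T B) (hP0 : S ∪ T ⊆ P) : Disjoint (B ∪ up X) (S ∪ T) := by
  rw [disjoint_union_left]
  refine ⟨?_, disjoint_of_subset_right hP0 (disj_up X)⟩
  rw [disjoint_union_right]
  exact ⟨hd.sb.symm, hd.tb.symm⟩

theorem rhB_off (hd : Dj S T B) (hP0 : S ∪ T ⊆ P) (hB : B ⊆ P) :
    ∀ v ∈ Va (d4.off P) (c0v P (S ∪ T) (kvB k j)) ∅ X,
      rhB k j S T (B ∪ up X) v.1 = ta (d4.off P) (rhC k j S T B) X v := by
  intro v hv
  have h1 : v.1 ∈ VB k j S T (B ∪ up X) := by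
    rw [VB_eq]
    exact Va_off hP0 v hv
  rw [rhB_eq' hd.st (disj_BX hd hP0) h1]
  unfold ta rhC
  have h2 : (B ∪ up X).erase v.1 = B ∪ up (X.erase v) := by
    have h3 : (up X).erase v.1 = up (X.erase v) := by
      ext q
      rw [mem_erase, mem_up, mem_up]
      constructor
      · rintro ⟨h4, h5, h6⟩
        exact ⟨h5, mem_erase.2 ⟨fun h7 => h4 (congrArg Subtype.val h7), h6⟩⟩
      · rintro ⟨h5, h6⟩
        obtain ⟨h7, h8⟩ := mem_erase.1 h6
        exact ⟨fun h4 => h7 (Subtype.ext h4), h5, h8⟩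
    rw [erase_union_distrib, h3, erase_eq_of_notMem fun h4 => v.2 (hB h4)]
  rw [h2, sum_union (disjoint_of_subset_left hB (disj_up _).symm), sum_up, ← add_assoc]
  rfl

theorem rhB_fix (hd : Dj S T B) (hP0 : S ∪ T ⊆ P) (hB : B ⊆ P) {X0 : Finset Pg}
    (h : ∀ b ∈ B, ∑ q ∈ up X, s4 b q = ∑ q ∈ X0, s4 b q) :
    ∀ v ∈ Va d4 (kvB k j) (S ∪ T) B, rhB k j S T (B ∪ up X) v = taC k j S T B X0 v := by
  intro v hv
  have hvB := (mem_Va.1 hv).1
  have h1 : v ∈ VB k j S T (B ∪ up X) := by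
    rw [VB_eq]
    exact Va_sub d4 _ _ _ X hv
  rw [rhB_eq' hd.st (disj_BX hd hP0) h1]
  unfold ta taC
  have h2 : (B ∪ up X).erase v = B.erase v ∪ up X := by
    rw [erase_union_distrib, erase_eq_of_notMem (s := up X)]
    exact fun h4 => disjoint_left.1 (disj_up X) h4 (hB hvB)
  rw [h2, sum_union, ← h v hvB]
  · rfl
  · exact disjoint_of_subset_left ((erase_subset _ _).trans hB) (disj_up _).symm

end

/-! ### The four kinds of criteria -/

section

variable {k : ZMod 4} {j : Fin 4} {S T B P X0 : Finset Pg} {X : Finset (Off P)}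

theorem detC0 (hd : Dj S T B) (hP0 : S ∪ T ⊆ P) (hB : B ⊆ P)
    (h : ∀ b ∈ B, ∑ q ∈ up X, s4 b q = ∑ q ∈ X0, s4 b q) :
    DetB0 k j S T (B ∪ up X) ↔
      kW (d4.off P) (c0v P (S ∪ T) (kvB k j))
        (brd P (Va d4 (kvB k j) (S ∪ T) B) (id : (S ∪ T : Finset Pg) → (S ∪ T : Finset Pg))
          (Da.P0 (Fin 2)))
        (crn d4 (kvB k j) (Da.P0 (Fin 2)) Da.R0 (Va d4 (kvB k j) (S ∪ T) B) (taC k j S T B X0)
          (id : (S ∪ T : Finset Pg) → (S ∪ T : Finset Pg))) (rhC k j S T B) ∅ X = 1 := by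
  unfold DetB0 NB0
  rw [VB_eq]
  exact kW_det d4_sym hP0 hB (rhB_fix hd hP0 hB h) (rhB_off hd hP0 hB)

theorem detC1 (hd : Dj S T B) (hP0 : S ∪ T ⊆ P) (hB : B ⊆ P)
    (h : ∀ b ∈ B, ∑ q ∈ up X, s4 b q = ∑ q ∈ X0, s4 b q) (p : Fin 2 → ZMod 2) (x : ZMod 2) :
    DetB1 k j p x S T (B ∪ up X) ↔
      kW (d4.off P) (c0v P (S ∪ T) (kvB k j))
        (brd P (Va d4 (kvB k j) (S ∪ T) B) (id : (S ∪ T : Finset Pg) → (S ∪ T : Finset Pg))
          (PpB p))
        (crn d4 (kvB k j) (PpB p) (Da.R1 x) (Va d4 (kvB k j) (S ∪ T) B) (taC k j S T B X0)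
          (id : (S ∪ T : Finset Pg) → (S ∪ T : Finset Pg))) (rhC k j S T B) ∅ X = 1 := by
  unfold DetB1 NB1
  rw [VB_eq]
  exact kW_det d4_sym hP0 hB (rhB_fix hd hP0 hB h) (rhB_off hd hP0 hB)

variable {Q : Type} [Fintype Q] [DecidableEq Q] {p0 : (S ∪ T : Finset Pg)}
  {r : Q → (S ∪ T : Finset Pg)}

theorem kerC0 (hd : Dj S T B) (hP0 : S ∪ T ⊆ P) (hB : B ⊆ P)
    (h : ∀ b ∈ B, ∑ q ∈ up X, s4 b q = ∑ q ∈ X0, s4 b q) (hc : kvB k j = 0)
    (hr1 : Function.Injective r) (hr : ∀ p, (∃ x, r x = p) ↔ p ≠ p0) :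
    KerB0 k j S T (B ∪ up X) ↔
      kW (d4.off P) (c0v P (S ∪ T) (kvB k j))
        (brd P (Va d4 (kvB k j) (S ∪ T) B) r (Da.P0 (Fin 2)))
        (crn d4 (kvB k j) (Da.P0 (Fin 2)) Da.R0 (Va d4 (kvB k j) (S ∪ T) B) (taC k j S T B X0) r)
        (rhC k j S T B) ∅ X = 1 := by
  unfold KerB0 NB0
  rw [VB_eq, ← kW_ker (p0 := p0) (τ := rhB k j S T (B ∪ up X)) d4_sym hP0 hB
    (rhB_fix hd hP0 hB h) (rhB_off hd hP0 hB) (fun e _ => e.elim) ?_ hr1 hr]
  · exact ⟨fun h => h.2, fun h => ⟨⟨p0, p0.2⟩, h⟩⟩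
  · rw [hc]
    exact u_mem d4_sym (disj_BX hd hP0) _ _ fun e => e.elim

theorem bd_sum (hd : Dj S T B) {p : Fin 2 → ZMod 2} {B' : Finset Pg}
    (h0 : p 0 * aa (cB S T B') + p 1 * bb (cB S T B') = 0) (e : Unit) :
    ∑ t ∈ S ∪ T, d4.bd (PpB p) t e = 0 := by
  rw [aa_cBs, bb_cBs, ← sum_union hd.st, ← sum_union hd.st, mul_sum, mul_sum,
    ← sum_add_distrib] at h0
  rw [← h0]
  refine sum_congr rfl fun t _ => ?_
  unfold Dat2.bd
  rw [Fin.sum_univ_two]
  rfl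

theorem kerC1 (hd : Dj S T B) (hP0 : S ∪ T ⊆ P) (hB : B ⊆ P)
    (h : ∀ b ∈ B, ∑ q ∈ up X, s4 b q = ∑ q ∈ X0, s4 b q) (hc : kvB k j = 0)
    {p : Fin 2 → ZMod 2} (x : ZMod 2) {B' : Finset Pg}
    (h0 : p 0 * aa (cB S T B') + p 1 * bb (cB S T B') = 0)
    (hr1 : Function.Injective r) (hr : ∀ p, (∃ x, r x = p) ↔ p ≠ p0) :
    KerB1 k j p x S T (B ∪ up X) ↔
      kW (d4.off P) (c0v P (S ∪ T) (kvB k j))
        (brd P (Va d4 (kvB k j) (S ∪ T) B) r (PpB p))
        (crn d4 (kvB k j) (PpB p) (Da.R1 x) (Va d4 (kvB k j) (S ∪ T) B) (taC k j S T B X0) r)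
        (rhC k j S T B) ∅ X = 1 := by
  unfold KerB1 NB1
  rw [VB_eq, ← kW_ker (p0 := p0) (τ := rhB k j S T (B ∪ up X)) d4_sym hP0 hB
    (rhB_fix hd hP0 hB h) (rhB_off hd hP0 hB) (fun _ _ => rfl) ?_ hr1 hr]
  · exact ⟨fun h => h.2, fun h => ⟨⟨p0, p0.2⟩, h⟩⟩
  · rw [hc]
    exact u_mem d4_sym (disj_BX hd hP0) _ _ (bd_sum hd h0)

end

/-! ### All the classes -/

/-- The criterion `Q` for the `X` outside `P` in the class `g` is the nonsingularity of a matrix with a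
border which is independent modulo the activity character. -/
def GC (m : ℕ) (P P0 : Finset Pg) (c : Fin 2 → ZMod 2) (ρ : Off P → ZMod 2) (g : GB m P)
    (Q : Finset Pg → Prop) : Prop :=
  ∃ (n : ℕ) (Pm : Fin 2 ⊕ P → Fin n → ZMod 2) (R : Matrix (Fin n) (Fin n) (ZMod 2)),
    (∀ e f, R e f = R f e) ∧
    (∀ (x : Fin n → ZMod 2) (t : ZMod 2),
      (∀ i, ∑ e, Pm i e * x e = t * c0v P P0 c i) → x = 0) ∧
    ∀ X : Finset (Off P), ∑ q ∈ up X, clB m P q = g →
      (Q (up X) ↔ kW (d4.off P) (c0v P P0 c) Pm R ρ ∅ X = 1)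

theorem GC.mk' {m : ℕ} {P P0 : Finset Pg} {c : Fin 2 → ZMod 2} {ρ : Off P → ZMod 2} {g : GB m P}
    {Q : Finset Pg → Prop} {E : Type} [Fintype E] [DecidableEq E] {Pm : Fin 2 ⊕ P → E → ZMod 2}
    {R : Matrix E E (ZMod 2)} (hR : ∀ e f, R e f = R f e)
    (hP : ∀ (x : E → ZMod 2) (t : ZMod 2),
      (∀ i, ∑ e, Pm i e * x e = t * c0v P P0 c i) → x = 0)
    (h : ∀ X : Finset (Off P), ∑ q ∈ up X, clB m P q = g →
      (Q (up X) ↔ kW (d4.off P) (c0v P P0 c) Pm R ρ ∅ X = 1)) : GC m P P0 c ρ g Q := by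
  obtain ⟨e⟩ : Nonempty (Fin (Fintype.card E) ≃ E) := ⟨(Fintype.equivFin E).symm⟩
  refine ⟨Fintype.card E, fun j x => Pm j (e x), R.submatrix e e, fun x y => hR _ _,
    fun x t hx => ?_, fun X hX => ?_⟩
  · have h1 := hP (fun y => x (e.symm y)) t fun i => by
      rw [← hx i, ← e.sum_comp]
      simp only [Equiv.symm_apply_apply]
    funext y
    have h2 := congrFun h1 (e y)
    simp only [Equiv.symm_apply_apply] at h2
    exact h2
  · rw [h X hX, kW_reidx]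

/-- The classes without sets. -/
theorem GC.of_empty {m : ℕ} {P P0 : Finset Pg} {c : Fin 2 → ZMod 2} {ρ : Off P → ZMod 2}
    {g : GB m P} {Q : Finset Pg → Prop}
    (h : ¬ ∃ S : Finset Pg, Disjoint S P ∧ ∑ q ∈ S, clB m P q = g) : GC m P P0 c ρ g Q :=
  ⟨0, fun _ e => e.elim0, fun e _ => e.elim0, fun e _ => e.elim0, fun _ _ _ =>
    funext fun e => e.elim0, fun X hX => absurd ⟨up X, disj_up X, hX⟩ h⟩

/-- **The criterion in all the classes.** -/
theorem gdC {k : ZMod 4} {j : Fin 4} {S T B P : Finset Pg} (hd : Dj S T B)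
    (hns : kvB k j ≠ 0 ∨ (S ∪ T).Nonempty) (hP0 : S ∪ T ⊆ P) (hB : B ⊆ P) {m : ℕ} (hm : 2 ≤ m)
    (g : GB m P) : GC m P (S ∪ T) (kvB k j) (rhC k j S T B) g fun X => GdB k j S T (B ∪ X) := by
  by_cases hg0 : ∃ S : Finset Pg, Disjoint S P ∧ ∑ q ∈ S, clB m P q = g
  swap
  · exact GC.of_empty hg0
  obtain ⟨X0, hX0, hg⟩ := hg0
  have hSm : ∀ X : Finset (Off P), ∑ q ∈ up X, clB m P q = g → Sm m P (up X) X0 :=
    fun X hX => ⟨disj_up X, hX0, hX.trans hg.symm⟩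
  have hs4 : ∀ X : Finset (Off P), ∑ q ∈ up X, clB m P q = g →
      ∀ b ∈ B, ∑ q ∈ up X, s4 b q = ∑ q ∈ X0, s4 b q := fun X hX b hb =>
    (hSm X hX).s4_eq (hB hb)
  have hdv : ∀ X : Finset (Off P), ∑ q ∈ up X, clB m P q = g →
      lam ^ 7 ∣ DDq (B ∪ up X) - DDq (B ∪ X0) := by
    intro X hX
    obtain ⟨t, ht⟩ := (pow_dvd_pow lam (by omega : 7 ≤ m + 5)).trans (hSm X hX).dvd
    have e1 : ∀ Y : Finset Pg, Disjoint Y P → DDq (B ∪ Y) = DDq B * DDq Y := by
      intro Y hY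
      unfold DDq
      exact prod_union (disjoint_of_subset_left hB hY.symm)
    rw [e1 _ (disj_up X), e1 _ hX0]
    exact ⟨DDq B * t, by linear_combination DDq B * ht⟩
  have h2 : ∀ x : ZMod 2, x = 0 ∨ x = 1 := by decide
  have hV0 : ∀ (k : ZMod 4) (j : Fin 4), Va d4 (kvB k j) (S ∪ T) B ⊆ P := fun k j =>
    (Va_subset _ _ _ _).trans hB
  have hdV : ∀ (k : ZMod 4) (j : Fin 4), Disjoint (S ∪ T) (Va d4 (kvB k j) (S ∪ T) B) := by
    intro k j
    refine disjoint_of_subset_right (Va_subset _ _ _ _) ?_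
    rw [disjoint_union_left]
    exact ⟨hd.sb, hd.tb⟩
  -- the four kinds
  have d0 : ∀ (k : ZMod 4) (j : Fin 4), kvB k j ≠ 0 →
      (∀ B, GdB k j S T B ↔ DetB0 k j S T B) →
      GC m P (S ∪ T) (kvB k j) (rhC k j S T B) g fun X => GdB k j S T (B ∪ X) := by
    intro k j hc h
    refine GC.mk' (Pm := brd P (Va d4 (kvB k j) (S ∪ T) B)
      (id : (S ∪ T : Finset Pg) → (S ∪ T : Finset Pg)) (Da.P0 (Fin 2)))
      (R := crn d4 (kvB k j) (Da.P0 (Fin 2)) Da.R0 (Va d4 (kvB k j) (S ∪ T) B)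
      (taC k j S T B X0) (id : (S ∪ T : Finset Pg) → (S ∪ T : Finset Pg)))
      (crn_symm d4_sym _ (fun e _ => e.elim) _ _ _)
      (brd_ind_id hP0 (hV0 k j) (hdV k j) ?_) fun X hX => ?_
    · intro x t hx
      refine ⟨funext fun e => e.elim, ?_⟩
      rcases h2 t with ht | ht
      · exact ht
      · exact absurd (funext fun i => by
          have h3 := hx i
          rw [ht, one_mul] at h3
          rw [← h3]
          rfl) hc
    · rw [h, detC0 hd hP0 hB (hs4 X hX)]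
  have d1 : ∀ (k : ZMod 4) (j : Fin 4) (p : Fin 2 → ZMod 2) (x : ZMod 2), (∃ i, p i = 1) →
      (∃ i, p i = 0 ∧ kvB k j i ≠ 0) →
      (∀ X : Finset (Off P), ∑ q ∈ up X, clB m P q = g →
        (GdB k j S T (B ∪ up X) ↔ DetB1 k j p x S T (B ∪ up X))) →
      GC m P (S ∪ T) (kvB k j) (rhC k j S T B) g fun X => GdB k j S T (B ∪ X) := by
    intro k j p x hp hc h
    refine GC.mk' (Pm := brd P (Va d4 (kvB k j) (S ∪ T) B)
      (id : (S ∪ T : Finset Pg) → (S ∪ T : Finset Pg)) (PpB p))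
      (R := crn d4 (kvB k j) (PpB p) (Da.R1 x) (Va d4 (kvB k j) (S ∪ T) B)
      (taC k j S T B X0) (id : (S ∪ T : Finset Pg) → (S ∪ T : Finset Pg)))
      (crn_symm d4_sym _ (fun _ _ => rfl) _ _ _)
      (brd_ind_id hP0 (hV0 k j) (hdV k j) ?_) fun X hX => ?_
    · intro y t hy
      have ht : t = 0 := by
        obtain ⟨i, hi, hi2⟩ := hc
        have h3 := hy i
        rw [Fintype.sum_unique] at h3
        have h4 : (0 : ZMod 2) = t * kvB k j i := by
          rw [← h3]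
          show 0 = p i * _
          rw [hi, zero_mul]
        rcases mul_eq_zero.1 h4.symm with h5 | h5
        · exact h5
        · exact absurd h5 hi2
      refine ⟨PpB_inj hp y fun i => ?_, ht⟩
      rw [hy i, ht, zero_mul]
    · rw [h X hX, detC1 hd hP0 hB (hs4 X hX)]
  have k0 : ∀ (k : ZMod 4) (j : Fin 4), (S ∪ T).Nonempty → kvB k j = 0 →
      (∀ X : Finset (Off P), ∑ q ∈ up X, clB m P q = g →
        (GdB k j S T (B ∪ up X) ↔ KerB0 k j S T (B ∪ up X))) →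
      GC m P (S ∪ T) (kvB k j) (rhC k j S T B) g fun X => GdB k j S T (B ∪ X) := by
    rintro k j ⟨p0, hp0⟩ hc h
    have hr : ∀ p : (S ∪ T : Finset Pg), (∃ x : {x : (S ∪ T : Finset Pg) // x ≠ ⟨p0, hp0⟩},
        (x : (S ∪ T : Finset Pg)) = p) ↔ p ≠ ⟨p0, hp0⟩ := fun p =>
      ⟨fun ⟨x, hx⟩ => hx ▸ x.2, fun h => ⟨⟨p, h⟩, rfl⟩⟩
    refine GC.mk' (Pm := brd P (Va d4 (kvB k j) (S ∪ T) B)
      (Subtype.val : {x : (S ∪ T : Finset Pg) // x ≠ ⟨p0, hp0⟩} → _) (Da.P0 (Fin 2)))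
      (R := crn d4 (kvB k j) (Da.P0 (Fin 2)) Da.R0 (Va d4 (kvB k j) (S ∪ T) B)
      (taC k j S T B X0) (Subtype.val : {x : (S ∪ T : Finset Pg) // x ≠ ⟨p0, hp0⟩} → _))
      (crn_symm d4_sym _ (fun e _ => e.elim) _ _ _)
      (brd_ind_r hP0 (hV0 k j) (hdV k j) Subtype.val_injective hr
        fun x _ => funext fun e => e.elim) fun X hX => ?_
    rw [h X hX, kerC0 hd hP0 hB (hs4 X hX) hc Subtype.val_injective hr]
  have k1 : ∀ (k : ZMod 4) (j : Fin 4) (p : Fin 2 → ZMod 2) (x : ZMod 2), (S ∪ T).Nonempty →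
      (∃ i, p i = 1) → kvB k j = 0 →
      p 0 * aa (cB S T (B ∪ X0)) + p 1 * bb (cB S T (B ∪ X0)) = 0 →
      (∀ X : Finset (Off P), ∑ q ∈ up X, clB m P q = g →
        (GdB k j S T (B ∪ up X) ↔ KerB1 k j p x S T (B ∪ up X))) →
      GC m P (S ∪ T) (kvB k j) (rhC k j S T B) g fun X => GdB k j S T (B ∪ X) := by
    rintro k j p x ⟨p0, hp0⟩ hp hc h0 h
    have hr : ∀ p : (S ∪ T : Finset Pg), (∃ x : {x : (S ∪ T : Finset Pg) // x ≠ ⟨p0, hp0⟩},
        (x : (S ∪ T : Finset Pg)) = p) ↔ p ≠ ⟨p0, hp0⟩ := fun p =>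
      ⟨fun ⟨x, hx⟩ => hx ▸ x.2, fun h => ⟨⟨p, h⟩, rfl⟩⟩
    refine GC.mk' (Pm := brd P (Va d4 (kvB k j) (S ∪ T) B)
      (Subtype.val : {x : (S ∪ T : Finset Pg) // x ≠ ⟨p0, hp0⟩} → _) (PpB p))
      (R := crn d4 (kvB k j) (PpB p) (Da.R1 x) (Va d4 (kvB k j) (S ∪ T) B)
      (taC k j S T B X0) (Subtype.val : {x : (S ∪ T : Finset Pg) // x ≠ ⟨p0, hp0⟩} → _))
      (crn_symm d4_sym _ (fun _ _ => rfl) _ _ _)
      (brd_ind_r hP0 (hV0 k j) (hdV k j) Subtype.val_injective hr (PpB_inj hp)) fun X hX => ?_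
    rw [h X hX, kerC1 hd hP0 hB (hs4 X hX) hc x h0 Subtype.val_injective hr]
  have hFn : kvB k j = 0 → (S ∪ T).Nonempty := fun h => hns.resolve_left fun h' => h' h
  have p10 : ∃ i, (![1, 0] : Fin 2 → ZMod 2) i = 1 := ⟨0, rfl⟩
  have p01 : ∃ i, (![0, 1] : Fin 2 → ZMod 2) i = 1 := ⟨1, rfl⟩
  have p11 : ∃ i, (![1, 1] : Fin 2 → ZMod 2) i = 1 := ⟨0, rfl⟩
  have q10 : ∀ a b : ZMod 2, a = 0 →
      (![1, 0] : Fin 2 → ZMod 2) 0 * a + (![1, 0] : Fin 2 → ZMod 2) 1 * b = 0 := by decide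
  have q01 : ∀ a b : ZMod 2, b = 0 →
      (![0, 1] : Fin 2 → ZMod 2) 0 * a + (![0, 1] : Fin 2 → ZMod 2) 1 * b = 0 := by decide
  have q11 : ∀ a b : ZMod 2, a + b = 0 →
      (![1, 1] : Fin 2 → ZMod 2) 0 * a + (![1, 1] : Fin 2 → ZMod 2) 1 * b = 0 := by decide
  have hj : ∀ j : Fin 4, j = 0 ∨ j = 1 ∨ j = 2 ∨ j = 3 := by decide
  have hk4 : ∀ k : ZMod 4, k = 0 ∨ k = 1 ∨ k = 2 ∨ k = 3 := by decide
  have k00 : kvB 0 0 = 0 := by decide
  have k20 : kvB 2 0 = 0 := by decide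
  have k02 : kvB 0 2 = 0 := by decide
  have k22 : kvB 2 2 = 0 := by decide
  rcases hj j with rfl | rfl | rfl | rfl
  · rcases md_cases k with hk | rfl | rfl
    · refine d0 k 0 (fun h => ?_) fun B => gdB_c1 hk
      have h3 : md k = 0 := congrFun h 0
      rw [hk] at h3
      exact one_ne_zero h3
    · rcases h2 (aa (cB S T (B ∪ X0))) with hA | hA
      · rcases h2 (hf4 (nn (cB S T (B ∪ X0))) + bb (cB S T (B ∪ X0))) with hB' | hB'
        · refine k1 0 0 ![1, 0] (xl4 (llB (cB S T (B ∪ X0)))) (hFn k00) p10 k00 (q10 _ _ hA)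
            fun X h => ?_
          rw [gdB_x3 ((aa_W S T _ _).trans hA) (by rw [nn_W (hdv X h), bb_W S T _ (B ∪ X0), hB']),
            ll_W (hdv X h)]
        · refine k0 0 0 (hFn k00) k00 fun X h => ?_
          exact gdB_x2 ((aa_W S T _ _).trans hA)
            (by rw [nn_W (hdv X h), bb_W S T _ (B ∪ X0), hB'])
      · exact k0 0 0 (hFn k00) k00 fun X h => gdB_c2 (by decide) ((aa_W S T _ _).trans hA)
    · rcases h2 (aa (cB S T (B ∪ X0))) with hA | hA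
      · refine k1 2 0 ![1, 0] (hf4 (nn (cB S T (B ∪ X0)))) (hFn k20) p10 k20 (q10 _ _ hA)
          fun X h => ?_
        rw [gdB_x1 ((aa_W S T _ _).trans hA), nn_W (hdv X h)]
      · exact k0 2 0 (hFn k20) k20 fun X h => gdB_c2 (by decide) ((aa_W S T _ _).trans hA)
  · exact d1 k 1 ![1, 0] (xk4 k) p10 ⟨1, rfl, by
      show (((1 : Fin 4).val : ℕ) : ZMod 2) ≠ 0
      decide⟩ fun X _ => gdB_e
  · rcases hk4 k with rfl | rfl | rfl | rfl
    · rcases h2 (bb (cB S T (B ∪ X0))) with hA | hA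
      · refine k1 0 2 ![0, 1] (uB0 (mmB (cB S T (B ∪ X0))) (nnB (cB S T (B ∪ X0)))) (hFn k02)
          p01 k02 (q01 _ _ hA) fun X h => ?_
        rw [gdB_d20 ((bb_W S T _ _).trans hA), (mn_W (hdv X h)).1, (mn_W (hdv X h)).2]
      · exact k0 0 2 (hFn k02) k02 fun X h => gdB_c20 ((bb_W S T _ _).trans hA)
    · exact d0 1 2 (by decide) fun B => gdB_a2
    · rcases h2 (aa (cB S T (B ∪ X0)) + bb (cB S T (B ∪ X0))) with hA | hA
      · refine k1 2 2 ![1, 1] (uB2 (mmB (cB S T (B ∪ X0))) (nnB (cB S T (B ∪ X0)))) (hFn k22)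
          p11 k22 (q11 _ _ hA) fun X h => ?_
        rw [gdB_d22 (by rw [aa_W S T _ (B ∪ X0), bb_W S T _ (B ∪ X0), hA]),
          (mn_W (hdv X h)).1, (mn_W (hdv X h)).2]
      · exact k0 2 2 (hFn k22) k22 fun X h =>
          gdB_c22 (by rw [aa_W S T _ (B ∪ X0), bb_W S T _ (B ∪ X0), hA])
    · refine d1 3 2 ![0, 1] (uB3 (mmB (cB S T (B ∪ X0))) (nnB (cB S T (B ∪ X0)))) p01 ⟨0, rfl, by
        decide⟩ fun X h => ?_
      rw [gdB_b2, (mn_W (hdv X h)).1, (mn_W (hdv X h)).2]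
  · refine d0 k 3 (fun h => ?_) fun B => gdB_j3
    have h3 : (((3 : Fin 4).val : ℕ) : ZMod 2) = 0 := congrFun h 1
    exact absurd h3 (by decide)

end

end Pool.Agent.Lib.MP_1a91b9_ntQ.M
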