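import Pool.Agent.Lib.MP_1a91b9_ntQ.M.ExpW
import Pool.Agent.Lib.MP_1a91b9_ntQ.D.MoQ

/-!
# MP_1a91b9_nt (quadratic twists of a fixed curve), part M: the number of main terms

The main terms are the maximal totally singular subspaces on which the linear data of the labels are
trivial or those of the character which defines the active primes.
-/

set_option autoImplicit false
set_option linter.unusedSectionVars false

namespace Pool.Agent.Lib.MP_1a91b9_ntQ.M

open Finset Pool.Agent.Lib.MP_1a91b9_ntH Pool.Agent.Lib.MP_1a91b9_ntQ.Da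

noncomputable section

variable {ι : Type} [DecidableEq ι] {κ : Type} [Fintype κ] [DecidableEq κ] {E : Type} [Fintype E]
  [DecidableEq E] {k : ℕ}

open Classical in
/-- The sets of labels of the main terms. -/
def MsW (Λ : LS2 (Lab2 k) ι κ) (F : Finset ι) (c : κ → ZMod 2) : Finset (Finset (Lab2 k)) :=
  univ.filter fun U => U ∈ Λ.Us ∧ 0 ∈ U ∧
    ∀ l ∈ U, (Λ.c l = 0 ∧ ∀ p ∈ F, Λ.t l p = 0) ∨ (Λ.c l = c ∧ ∀ p ∈ F, Λ.t l p = 1)

theorem LSW_lk (P : κ → E → ZMod 2) (F : Finset ι) (α : ι → Lab2 k) (m : E → Lab2 k)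
    (l l' : Lab2 k) : (LSW k P F α m).lk l l' = Q2 (l - l') := PhiQ_add l l'

theorem LSW_Unl (P : κ → E → ZMod 2) (F : Finset ι) (α : ι → Lab2 k) (m : E → Lab2 k)
    (U : Finset (Lab2 k)) : (LSW k P F α m).Unl U ↔ Unl2 U := by
  rw [LS2.Unl, Unl2]
  simp only [LSW_lk]

theorem LSW_OK (hk : 1 ≤ k) (P : κ → E → ZMod 2) (F : Finset ι) (α : ι → Lab2 k)
    (m : E → Lab2 k) : (LSW k P F α m).OK where
  diag := PhiQ_self
  two := by
    show 2 ≤ 2 ^ k
    calc 2 ≤ 2 ^ 1 := by norm_num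
      _ ≤ 2 ^ k := Nat.pow_le_pow_right (by norm_num) hk
  k1 := fun U hU => K1 ((LSW_Unl P F α m U).1 hU)
  k2 := fun U hU hc x hx => by
    have hU' := (LSW_Unl P F α m U).1 hU
    have hc' : U.card = 2 ^ k := hc
    have hne : U.Nonempty := by
      rw [← card_pos, hc']; positivity
    obtain ⟨l0, hl0⟩ := hne
    by_contra hcon
    push Not at hcon
    refine hx (K2 hU' hc' (Q2 (l0 - x)) fun l hl => ?_)
    have := hcon l hl l0 hl0
    rw [LSW_lk, LSW_lk] at this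
    exact this

theorem mem_MsW {P : κ → E → ZMod 2} {F : Finset ι} {α : ι → Lab2 k} {m : E → Lab2 k}
    {c : κ → ZMod 2} {U : Finset (Lab2 k)} :
    U ∈ MsW (LSW k P F α m) F c ↔ Mx2 U ∧
      ∀ l ∈ U, ((∀ j, ∑ e, P j e * B2 l (m e) = 0) ∧ ∀ p ∈ F, B2 l (α p) = 0) ∨
        ((∀ j, ∑ e, P j e * B2 l (m e) = c j) ∧ ∀ p ∈ F, B2 l (α p) = 1) := by
  classical
  rw [MsW, mem_filter, LS2.mem_Us, LSW_Unl]
  constructor
  · rintro ⟨-, ⟨h1, h2⟩, h3, h4⟩
    refine ⟨⟨h1, h2, h3⟩, fun l hl => ?_⟩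
    rcases h4 l hl with ⟨h5, h6⟩ | ⟨h5, h6⟩
    · exact Or.inl ⟨fun j => congrFun h5 j, h6⟩
    · exact Or.inr ⟨fun j => congrFun h5 j, h6⟩
  · rintro ⟨h1, h2⟩
    refine ⟨mem_univ _, ⟨h1.unl, h1.card⟩, h1.zero, fun l hl => ?_⟩
    rcases h2 l hl with ⟨h5, h6⟩ | ⟨h5, h6⟩
    · exact Or.inl ⟨funext h5, h6⟩
    · exact Or.inr ⟨funext h5, h6⟩

/-- The main term of the `k`-th moment. -/
def TW (k : ℕ) (D : Dat2 ι κ) (c : κ → ZMod 2) (P : κ → E → ZMod 2) (R : Matrix E E (ZMod 2))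
    (F : Finset ι) : ℂ :=
  ∑ a : F → Lab2 k, ∑ m : E → Lab2 k, e2 (RF (D.NB c P R F) (Sum.elim a m)) *
    ((MsW (LSW k P F (exl F a) m) F c).card : ℂ)

/-- Exchange of the sums. -/
theorem TW_swap (D : Dat2 ι κ) (c : κ → ZMod 2) (P : κ → E → ZMod 2)
    (R : Matrix E E (ZMod 2)) (F : Finset ι)
    (Q : Finset (Lab2 k) → (F → Lab2 k) → (E → Lab2 k) → Prop)
    (hQ : ∀ U a m, U ∈ MsW (LSW k P F (exl F a) m) F c ↔ Mx2 U ∧ Q U a m)
    (h0 : ∀ U a m, Mx2 U → Q U a m → RF (D.NB c P R F) (Sum.elim a m) = 0) (N : ℕ)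
    (hN : ∀ U, Mx2 U → Nat.card {p : (F → Lab2 k) × (E → Lab2 k) // Q U p.1 p.2} = N) :
    TW k D c P R F = Nk2 k * N := by
  classical
  have h1 : ∀ a m, e2 (RF (D.NB c P R F) (Sum.elim a m)) *
      ((MsW (LSW k P F (exl F a) m) F c).card : ℂ) =
      ∑ U ∈ Lgs2 k, if Q U a m then (1 : ℂ) else 0 := by
    intro a m
    have h2 : MsW (LSW k P F (exl F a) m) F c = (Lgs2 k).filter fun U => Q U a m := by
      ext U
      rw [hQ, mem_filter, mem_Lgs2]
    rw [h2, ← sum_filter, sum_const, nsmul_eq_mul, mul_one]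
    by_cases hne : ((Lgs2 k).filter fun U => Q U a m).Nonempty
    · obtain ⟨U, hU⟩ := hne
      rw [mem_filter, mem_Lgs2] at hU
      rw [h0 U a m hU.1 hU.2, e2_zero, one_mul]
    · rw [not_nonempty_iff_eq_empty] at hne
      rw [hne, card_empty, Nat.cast_zero, mul_zero]
  unfold TW
  simp only [h1]
  have h3 : ∀ U ∈ Lgs2 k, ∑ a : F → Lab2 k, ∑ m : E → Lab2 k,
      (if Q U a m then (1 : ℂ) else 0) = N := by
    intro U hU
    rw [← Fintype.sum_prod_type' (f := fun (a : F → Lab2 k) (m : E → Lab2 k) =>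
      if Q U a m then (1 : ℂ) else 0), ← sum_filter, sum_const, nsmul_eq_mul, mul_one,
      ← hN U (mem_Lgs2.1 hU), Nat.card_eq_fintype_card, Fintype.card_subtype]
  have h4 : ∑ a : F → Lab2 k, ∑ m : E → Lab2 k, ∑ U ∈ Lgs2 k, (if Q U a m then (1 : ℂ) else 0) =
      ∑ U ∈ Lgs2 k, ∑ a : F → Lab2 k, ∑ m : E → Lab2 k, (if Q U a m then (1 : ℂ) else 0) := by
    rw [sum_comm (s := Lgs2 k)]
    exact sum_congr rfl fun a _ => sum_comm
  rw [h4, sum_congr rfl h3, sum_const, nsmul_eq_mul, card_Lgs2]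

theorem card_fun_mem {A : Type} [Fintype A] [DecidableEq A] (U : Finset (Lab2 k)) :
    Nat.card {a : A → Lab2 k // ∀ t, a t ∈ U} = U.card ^ Fintype.card A := by
  classical
  rw [Nat.card_eq_fintype_card, Fintype.card_subtype]
  have h1 : (univ.filter fun a : A → Lab2 k => ∀ t, a t ∈ U) = Fintype.piFinset fun _ => U := by
    ext a
    rw [mem_filter, Fintype.mem_piFinset]
    simp
  rw [h1, Fintype.card_piFinset, prod_const, card_univ]

theorem card_prod_sub {A B : Type} [Finite A] [Finite B] (p : A → Prop) (q : B → Prop) :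
    Nat.card {x : A × B // p x.1 ∧ q x.2} = Nat.card {a // p a} * Nat.card {b // q b} := by
  rw [← Nat.card_prod]
  exact Nat.card_congr
    { toFun := fun x => (⟨x.1.1, x.2.1⟩, ⟨x.1.2, x.2.2⟩)
      invFun := fun x => ⟨(x.1.1, x.2.1), x.1.2, x.2.2⟩
      left_inv := fun _ => rfl
      right_inv := fun _ => rfl }

theorem NB_symm {D : Dat2 ι κ} (hs : D.Sym) (c : κ → ZMod 2) (P : κ → E → ZMod 2)
    {R : Matrix E E (ZMod 2)} (hR : ∀ e f, R e f = R f e) (F : Finset ι) (e f : F ⊕ E) :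
    D.NB c P R F e f = D.NB c P R F f e := by
  rcases e with t | e <;> rcases f with t' | f
  · show D.N c F t t' = D.N c F t' t
    unfold Dat2.N
    by_cases h : t = t'
    · subst h
      rfl
    · rw [if_neg h, if_neg fun h' => h h'.symm]
      exact hs _ _ fun h' => h (Subtype.ext h')
  · rfl
  · rfl
  · exact hR e f

/-! ### The regular case -/

/-- The main term if `c` is not in the image of the border. -/
theorem TW_ne {D : Dat2 ι κ} (hs : D.Sym) {c : κ → ZMod 2} {P : κ → E → ZMod 2}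
    {R : Matrix E E (ZMod 2)} (hR : ∀ e f, R e f = R f e)
    (hP : ∀ x : E → ZMod 2, (∀ j, ∑ e, P j e * x e = 0) → x = 0)
    (hc : ¬ ∃ γ : E → ZMod 2, ∀ j, ∑ e, P j e * γ e = c j) (F : Finset ι) (k : ℕ) :
    TW k D c P R F = Nk2 k * (2 ^ k) ^ (F.card + Fintype.card E) := by
  have h1 := TW_swap (k := k) D c P R F (fun U a m => (∀ t, a t ∈ U) ∧ ∀ e, m e ∈ U) ?_ ?_
    ((2 ^ k) ^ (F.card + Fintype.card E)) ?_
  · rw [h1]
    push_cast
    rfl
  · intro U a m
    rw [mem_MsW]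
    refine and_congr_right fun hU => ?_
    constructor
    · intro h
      have h2 : ∀ l ∈ U, (∀ e, B2 l (m e) = 0) ∧ ∀ p ∈ F, B2 l (exl F a p) = 0 := by
        intro l hl
        rcases h l hl with ⟨h3, h4⟩ | ⟨h3, -⟩
        · exact ⟨fun e => congrFun (hP (fun e => B2 l (m e)) h3) e, h4⟩
        · exact absurd ⟨fun e => B2 l (m e), h3⟩ hc
      refine ⟨fun t => hU.mem_iff.2 fun x hx => ?_, fun e => hU.mem_iff.2 fun x hx => ?_⟩
      · have h3 := (h2 x hx).2 t t.2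
        rw [exl_coe] at h3
        rw [B2_comm]
        exact h3
      · rw [B2_comm]
        exact (h2 x hx).1 e
    · rintro ⟨ha, hm⟩ l hl
      refine Or.inl ⟨fun j => sum_eq_zero fun e _ => ?_, fun p hp => ?_⟩
      · rw [hU.unl.B hU.zero hl (hm e), mul_zero]
      · rw [exl, dif_pos hp]
        exact hU.unl.B hU.zero hl (ha _)
  · intro U a m hU h
    refine RF_mem (NB_symm hs c P hR F) hU fun i => ?_
    rcases i with t | e
    · exact h.1 t
    · exact h.2 e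
  · intro U hU
    rw [card_prod_sub (fun a : F → Lab2 k => ∀ t, a t ∈ U) fun m : E → Lab2 k => ∀ e, m e ∈ U,
      card_fun_mem, card_fun_mem, hU.card, Fintype.card_coe, pow_add]

/-! ### The case `c = 0` -/

/-- The number of labellings of `F` in one coset of `U`. -/
theorem card_coset {A : Type} [Fintype A] [DecidableEq A] [Nonempty A] {U : Finset (Lab2 k)}
    (hU : Mx2 U) : Nat.card {a : A → Lab2 k // ∀ t t', a t + a t' ∈ U} =
      2 ^ k * (2 ^ k) ^ Fintype.card A := by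
  classical
  obtain ⟨t0⟩ := ‹Nonempty A›
  have h1 : Nat.card {x : Lab2 k × (A → Lab2 k) // ∀ t, x.2 t + x.1 ∈ U} =
      4 ^ k * (2 ^ k) ^ Fintype.card A := by
    have e : {x : Lab2 k × (A → Lab2 k) // ∀ t, x.2 t + x.1 ∈ U} ≃
        Lab2 k × {a : A → Lab2 k // ∀ t, a t ∈ U} :=
      { toFun := fun x => (x.1.1, ⟨fun t => x.1.2 t + x.1.1, x.2⟩)
        invFun := fun x => ⟨(x.1, fun t => x.2.1 t + x.1), fun t => by
          show x.2.1 t + x.1 + x.1 ∈ U
          rw [l2_add_add]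
          exact x.2.2 t⟩
        left_inv := fun x => Subtype.ext (Prod.ext rfl (funext fun t => l2_add_add _ _))
        right_inv := fun x => Prod.ext rfl (Subtype.ext (funext fun t => l2_add_add _ _)) }
    rw [Nat.card_congr e, Nat.card_prod, card_fun_mem, hU.card, Nat.card_eq_fintype_card,
      card_Lab2]
  have h2 : Nat.card {x : Lab2 k × (A → Lab2 k) // ∀ t, x.2 t + x.1 ∈ U} =
      2 ^ k * Nat.card {a : A → Lab2 k // ∀ t t', a t + a t' ∈ U} := by
    have e : {x : Lab2 k × (A → Lab2 k) // ∀ t, x.2 t + x.1 ∈ U} ≃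
        {l : Lab2 k // l ∈ U} × {a : A → Lab2 k // ∀ t t', a t + a t' ∈ U} :=
      { toFun := fun x => (⟨x.1.2 t0 + x.1.1, x.2 t0⟩, ⟨x.1.2, fun t t' => by
          have h3 := hU.add_mem (x.2 t) (x.2 t')
          have h4 : x.1.2 t + x.1.1 + (x.1.2 t' + x.1.1) = x.1.2 t + x.1.2 t' := by
            rw [add_add_add_comm, l2_add_self, add_zero]
          rwa [h4] at h3⟩)
        invFun := fun x => ⟨(x.2.1 t0 + x.1.1, x.2.1), fun t => by
          show x.2.1 t + (x.2.1 t0 + x.1.1) ∈ U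
          rw [← add_assoc]
          exact hU.add_mem (x.2.2 t t0) x.1.2⟩
        left_inv := fun x => Subtype.ext (Prod.ext (by
          show x.1.2 t0 + (x.1.2 t0 + x.1.1) = x.1.1
          rw [← add_assoc, l2_add_self, zero_add]) rfl)
        right_inv := fun x => Prod.ext (Subtype.ext (by
          show x.2.1 t0 + (x.2.1 t0 + x.1.1) = x.1.1
          rw [← add_assoc, l2_add_self, zero_add])) rfl }
    rw [Nat.card_congr e, Nat.card_prod, Nat.card_eq_fintype_card, Fintype.card_coe, hU.card]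
  have h3 : (4 : ℕ) ^ k = 2 ^ k * 2 ^ k := by
    rw [← mul_pow]
    norm_num
  rw [h1, h3, mul_assoc] at h2
  exact (Nat.eq_of_mul_eq_mul_left (by positivity) h2).symm

/-- The vector `(1, 0)` is in the kernel of the fixed part. -/
theorem NB_row {D : Dat2 ι κ} {P : κ → E → ZMod 2} {R : Matrix E E (ZMod 2)} {F : Finset ι}
    (h0 : ∀ e, ∑ t ∈ F, D.bd P t e = 0) (i : F ⊕ E) :
    ∑ j, D.NB 0 P R F i j * Sum.elim (fun _ : F => (1 : ZMod 2)) (fun _ : E => 0) j = 0 := by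
  have h1 : ∑ j, D.NB 0 P R F i j * Sum.elim (fun _ : F => (1 : ZMod 2)) (fun _ : E => 0) j =
      (D.NB 0 P R F).mulVec (Sum.elim (fun _ : F => (1 : ZMod 2)) (fun _ : E => 0)) i := rfl
  rw [h1]
  rcases i with t | e
  · rw [Dat2.NB_inl]
    have h2 : ∀ x : ZMod 2, x + x = 0 := z2_add_self
    have h3 : D.dg (0 : κ → ZMod 2) t = 0 := by
      unfold Dat2.dg
      exact sum_eq_zero fun j _ => by rw [Pi.zero_apply, zero_mul]
    simp only [Sum.elim_inl, Sum.elim_inr, h2, h3, mul_zero, zero_mul, sum_const_zero]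
  · rw [Dat2.NB_inr]
    simp only [Sum.elim_inl, Sum.elim_inr, mul_one, mul_zero, sum_const_zero, add_zero]
    rw [← h0 e]
    exact sum_coe_sort F fun t => D.bd P t e

/-- The main term if `c = 0`. -/
theorem TW_ker {D : Dat2 ι κ} (hs : D.Sym) {P : κ → E → ZMod 2} {R : Matrix E E (ZMod 2)}
    (hR : ∀ e f, R e f = R f e) (hP : ∀ x : E → ZMod 2, (∀ j, ∑ e, P j e * x e = 0) → x = 0)
    {F : Finset ι} (hF : F.Nonempty) (h0 : ∀ e, ∑ t ∈ F, D.bd P t e = 0) (k : ℕ) :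
    TW k D 0 P R F = Nk2 k * (2 ^ k * (2 ^ k) ^ (F.card + Fintype.card E)) := by
  obtain ⟨p0, hp0⟩ := hF
  have hne : Nonempty F := ⟨⟨p0, hp0⟩⟩
  have h1 := TW_swap (k := k) D 0 P R F
    (fun U a m => (∀ t t', a t + a t' ∈ U) ∧ ∀ e, m e ∈ U) ?_ ?_
    (2 ^ k * (2 ^ k) ^ (F.card + Fintype.card E)) ?_
  · rw [h1]
    push_cast
    rfl
  · intro U a m
    rw [mem_MsW]
    refine and_congr_right fun hU => ?_
    constructor
    · intro h
      refine ⟨fun t t' => hU.mem_iff.2 fun x hx => ?_, fun e => hU.mem_iff.2 fun x hx => ?_⟩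
      · rw [B2_comm, B2_add]
        rcases h x hx with ⟨-, h4⟩ | ⟨-, h4⟩
        · have h5 := h4 t t.2
          have h6 := h4 t' t'.2
          rw [exl_coe] at h5 h6
          rw [h5, h6, add_zero]
        · have h5 := h4 t t.2
          have h6 := h4 t' t'.2
          rw [exl_coe] at h5 h6
          rw [h5, h6]
          exact z2_add_self 1
      · rw [B2_comm]
        rcases h x hx with ⟨h3, -⟩ | ⟨h3, -⟩
        · exact congrFun (hP (fun e => B2 x (m e)) h3) e
        · exact congrFun (hP (fun e => B2 x (m e)) h3) e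
    · rintro ⟨ha, hm⟩ l hl
      have h3 : ∀ j, ∑ e, P j e * B2 l (m e) = 0 := fun j => sum_eq_zero fun e _ => by
        rw [hU.unl.B hU.zero hl (hm e), mul_zero]
      have h4 : ∀ p ∈ F, B2 l (exl F a p) = B2 l (a ⟨p0, hp0⟩) := by
        intro p hp
        rw [exl, dif_pos hp]
        have h5 := hU.unl.B hU.zero hl (ha ⟨p, hp⟩ ⟨p0, hp0⟩)
        rw [B2_add] at h5
        rw [eq_neg_of_add_eq_zero_left h5, z2_neg]
      rcases z2 (B2 l (a ⟨p0, hp0⟩)) with h5 | h5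
      · exact Or.inl ⟨h3, fun p hp => (h4 p hp).trans h5⟩
      · exact Or.inr ⟨h3, fun p hp => (h4 p hp).trans h5⟩
  · intro U a m hU h
    set γ : F ⊕ E → ZMod 2 := Sum.elim (fun _ : F => (1 : ZMod 2)) (fun _ : E => 0) with hγ
    have h3 : (Sum.elim a m : F ⊕ E → Lab2 k) =
        sft γ (a ⟨p0, hp0⟩) (Sum.elim (fun t => a t + a ⟨p0, hp0⟩) m) := by
      funext i
      rcases i with t | e
      · show a t = a t + a ⟨p0, hp0⟩ + (1 : ZMod 2) • a ⟨p0, hp0⟩
        rw [one_smul, l2_add_add]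
      · show m e = m e + (0 : ZMod 2) • a ⟨p0, hp0⟩
        rw [zero_smul, add_zero]
    rw [h3, RF_sft (NB_symm hs 0 P hR F)]
    have h4 : ∀ i, ∑ j, D.NB 0 P R F i j * γ j = 0 := NB_row h0
    simp only [h4, mul_zero, zero_mul, sum_const_zero, zero_add]
    refine RF_mem (NB_symm hs 0 P hR F) hU fun i => ?_
    rcases i with t | e
    · exact h.1 t _
    · exact h.2 e
  · intro U hU
    rw [card_prod_sub (fun a : F → Lab2 k => ∀ t t', a t + a t' ∈ U)
      fun m : E → Lab2 k => ∀ e, m e ∈ U, card_fun_mem, card_coset hU, hU.card,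
      Fintype.card_coe, pow_add, mul_assoc]

end

end Pool.Agent.Lib.MP_1a91b9_ntQ.M
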