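import Pool.Agent.Lib.MP_1a91b9_ntQ.M.CntW
import Pool.Agent.Lib.MP_1a91b9_ntQ.D.ClsQ
import Pool.Agent.Lib.MP_1a91b9_ntQ.D.Lim2

/-!
# MP_1a91b9_nt (quadratic twists of a fixed curve), part M: the densities

From the engine (`EngW`) the moments of the size of the kernel in the classes of an arbitrary finite
abelian group `G` with an arbitrary function `cl : ι → G`, and the densities of the `B` with
nonsingular matrix, resp. with the smallest possible kernel.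
-/

set_option autoImplicit false
set_option linter.unusedSectionVars false

namespace Pool.Agent.Lib.MP_1a91b9_ntQ.M

open Finset Pool.Agent.Lib.MP_1a91b9_ntH Pool.Agent.Lib.MP_1a91b9_ntQ.Da

noncomputable section

variable {ι : Type} [DecidableEq ι] {κ : Type} [Fintype κ] [DecidableEq κ] {E : Type} [Fintype E]
  [DecidableEq E] {G : Type} [AddCommGroup G] [Fintype G] [PS ι]

/-- The statement of the weighted engine. -/
def EngW (D : Dat2 ι κ) (c : κ → ZMod 2) (F : Finset ι) : Prop :=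
  ∀ (k : ℕ) (Λ : LS2 (Lab2 k) ι κ), Λ.OK → Λ.B = F → Λ.c 0 = 0 → (∀ p ∈ F, Λ.t 0 p = 0) →
    ∀ h : Lab2 k → ι → ZMod 2, (∀ U ∈ Λ.Us, (0 : Lab2 k) ∈ U → ∀ l ∈ U, ∀ q, h l q = 0) →
    ∀ g : ι → ℂ, (∀ q, ‖g q‖ = 1) → ∀ ε : ℝ, 0 < ε → ∃ X₀ : ℕ, ∀ X : ℕ, X₀ ≤ X →
      ‖EnS D c F Λ h g X - ((MsW Λ F c).card : ℂ) * ∑ B ∈ SF F X, ∏ q ∈ B, g q‖ ≤ ε * X

/-- The weighted moments. -/
theorem MoW_lim {D : Dat2 ι κ} (hs : D.Sym) {c : κ → ZMod 2} {F : Finset ι} (hE : EngW D c F)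
    (P : κ → E → ZMod 2) (R : Matrix E E (ZMod 2)) (ρ : ι → ZMod 2) {g : ι → ℂ}
    (hg : ∀ q, ‖g q‖ = 1) {k : ℕ} (hk : 1 ≤ k) (ε : ℝ) (hε : 0 < ε) :
    ∃ X₀ : ℕ, ∀ X : ℕ, X₀ ≤ X →
      ‖MoW D c P R ρ F k g X * (2 ^ k) ^ (F.card + Fintype.card E) -
        TW k D c P R F * ∑ B ∈ SF F X, ∏ q ∈ B, g q‖ ≤ ε * X := by
  have hN : (0 : ℝ) < Fintype.card ((F → Lab2 k) × (E → Lab2 k)) := by
    exact_mod_cast Fintype.card_pos
  choose X0 h0 using fun p : (F → Lab2 k) × (E → Lab2 k) =>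
    hE k (LSW k P F (exl F p.1) p.2) (LSW_OK hk P F _ _) rfl
      (by
        funext j
        show ∑ e, P j e * B2 0 (p.2 e) = 0
        exact sum_eq_zero fun e _ => by rw [B2_zero', mul_zero])
      (fun q _ => B2_zero' _) (fun l q => Q2 l * ρ q)
      (fun U hU h0 l hl q => by
        have h1 := (LS2.mem_Us _ _).1 hU
        rw [LSW_Unl] at h1
        show Q2 l * ρ q = 0
        rw [h1.1.Q h0 hl, zero_mul])
      g hg (ε / Fintype.card ((F → Lab2 k) × (E → Lab2 k))) (by positivity)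
  refine ⟨∑ p, X0 p, fun X hX => ?_⟩
  have hXt : ∀ p, X0 p ≤ X := fun p =>
    (single_le_sum (fun _ _ => Nat.zero_le _) (mem_univ p)).trans hX
  rw [MoW_eq hs, TW, sum_mul, ← sum_sub_distrib]
  have h1 : ∀ a : F → Lab2 k, (∑ m : E → Lab2 k, e2 (RF (D.NB c P R F) (Sum.elim a m)) *
        EnS D c F (LSW k P F (exl F a) m) (fun l q => Q2 l * ρ q) g X) -
      (∑ m : E → Lab2 k, e2 (RF (D.NB c P R F) (Sum.elim a m)) *
        ((MsW (LSW k P F (exl F a) m) F c).card : ℂ)) * ∑ B ∈ SF F X, ∏ q ∈ B, g q =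
      ∑ m : E → Lab2 k, e2 (RF (D.NB c P R F) (Sum.elim a m)) *
        (EnS D c F (LSW k P F (exl F a) m) (fun l q => Q2 l * ρ q) g X -
        ((MsW (LSW k P F (exl F a) m) F c).card : ℂ) * ∑ B ∈ SF F X, ∏ q ∈ B, g q) := by
    intro a
    rw [sum_mul, ← sum_sub_distrib]
    exact sum_congr rfl fun m _ => by ring
  rw [sum_congr rfl fun a _ => h1 a, ← Fintype.sum_prod_type' (f := fun a m =>
    e2 (RF (D.NB c P R F) (Sum.elim a m)) *
        (EnS D c F (LSW k P F (exl F a) m) (fun l q => Q2 l * ρ q) g X -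
        ((MsW (LSW k P F (exl F a) m) F c).card : ℂ) * ∑ B ∈ SF F X, ∏ q ∈ B, g q))]
  calc _ ≤ ∑ _p : (F → Lab2 k) × (E → Lab2 k),
        ε / Fintype.card ((F → Lab2 k) × (E → Lab2 k)) * X := by
        refine (norm_sum_le _ _).trans (sum_le_sum fun p _ => ?_)
        rw [norm_mul, norm_e2, one_mul]
        exact h0 p X (hXt p)
    _ = ε * X := by
        rw [sum_const, card_univ, nsmul_eq_mul]
        field_simp

/-- The sum over a class. -/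
theorem sum_SB (F : Finset ι) (cl : ι → G) (γ : G) (X : ℕ) (Φ : Finset ι → ℂ) :
    ∑ B ∈ SB F cl γ X, Φ B = (∑ ψ : AddChar G ℂ, ψ (-γ) *
      ∑ B ∈ SF F X, (∏ q ∈ B, ψ (cl q)) * Φ B) / Fintype.card G := by
  classical
  have hG : (Fintype.card G : ℂ) ≠ 0 := Nat.cast_ne_zero.2 Fintype.card_ne_zero
  have h1 : ∀ (ψ : AddChar G ℂ) (B : Finset ι), ψ (-γ) * ((∏ q ∈ B, ψ (cl q)) * Φ B) =
      ψ (∑ q ∈ B, cl q - γ) * Φ B := by
    intro ψ B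
    rw [sub_eq_add_neg, AddChar.map_add_eq_mul, ch_sum]
    ring
  have h2 : ∑ ψ : AddChar G ℂ, ψ (-γ) * ∑ B ∈ SF F X, (∏ q ∈ B, ψ (cl q)) * Φ B =
      ∑ B ∈ SF F X, if ∑ q ∈ B, cl q = γ then (Fintype.card G : ℂ) * Φ B else 0 := by
    simp only [mul_sum, h1]
    rw [sum_comm]
    refine sum_congr rfl fun B _ => ?_
    rw [← sum_mul, AddChar.sum_apply_eq_ite]
    by_cases h : ∑ q ∈ B, cl q = γ
    · rw [if_pos (sub_eq_zero.2 h), if_pos h]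
    · rw [if_neg fun h' => h (sub_eq_zero.1 h'), if_neg h, zero_mul]
  have h3 : SB F cl γ X = (SF F X).filter fun B => ∑ q ∈ B, cl q = γ := by
    ext B
    rw [mem_SB, mem_filter, mem_SF, and_assoc]
  rw [h2, ← sum_filter, h3, ← mul_sum, mul_div_cancel_left₀ _ hG]

/-- The moments in a class. -/
theorem sum_kW {D : Dat2 ι κ} (hs : D.Sym) {c : κ → ZMod 2} {F : Finset ι} (hE : EngW D c F)
    (P : κ → E → ZMod 2) (R : Matrix E E (ZMod 2)) (ρ : ι → ZMod 2) (cl : ι → G) (γ : G)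
    {k : ℕ} (hk : 1 ≤ k) (ν : ℝ)
    (hT : TW k D c P R F = ν * (2 ^ k) ^ (F.card + Fintype.card E)) (ε : ℝ) (hε : 0 < ε) :
    ∃ X₀ : ℕ, ∀ X : ℕ, X₀ ≤ X →
      |∑ B ∈ SB F cl γ X, (kW D c P R ρ F B : ℝ) ^ k - ν * (SB F cl γ X).card| ≤ ε * X := by
  classical
  have hG : (0 : ℝ) < Fintype.card G := Nat.cast_pos.2 Fintype.card_pos
  have hGc : (Fintype.card G : ℂ) ≠ 0 := Nat.cast_ne_zero.2 Fintype.card_ne_zero
  set W : ℝ := (2 ^ k) ^ (F.card + Fintype.card E) with hW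
  have hW1 : 1 ≤ W := one_le_pow₀ (one_le_pow₀ (by norm_num))
  have hWc : ((W : ℝ) : ℂ) = (2 ^ k) ^ (F.card + Fintype.card E) := by
    rw [hW]
    push_cast
    rfl
  choose X1 h1 using fun ψ : AddChar G ℂ => MoW_lim hs hE P R ρ (g := fun q => ψ (cl q))
    (fun q => AddChar.norm_apply ψ _) hk ε hε
  refine ⟨∑ ψ, X1 ψ, fun X hX => ?_⟩
  have hX1 : ∀ ψ, X1 ψ ≤ X := fun ψ =>
    (single_le_sum (fun _ _ => Nat.zero_le _) (mem_univ ψ)).trans hX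
  have e1 := sum_SB F cl γ X fun B => (kW D c P R ρ F B : ℂ) ^ k
  have e2' := sum_SB F cl γ X fun _ => 1
  simp only [mul_one, sum_const, nsmul_eq_mul] at e2'
  have e3 : ((∑ B ∈ SB F cl γ X, (kW D c P R ρ F B : ℝ) ^ k - ν * (SB F cl γ X).card : ℝ) : ℂ) *
      W = (∑ ψ : AddChar G ℂ, ψ (-γ) * (MoW D c P R ρ F k (fun q => ψ (cl q)) X *
        (2 ^ k) ^ (F.card + Fintype.card E) -
        TW k D c P R F * ∑ B ∈ SF F X, ∏ q ∈ B, ψ (cl q))) / Fintype.card G := by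
    have e4 : ∑ ψ : AddChar G ℂ, ψ (-γ) * (MoW D c P R ρ F k (fun q => ψ (cl q)) X *
        (2 ^ k) ^ (F.card + Fintype.card E) -
        TW k D c P R F * ∑ B ∈ SF F X, ∏ q ∈ B, ψ (cl q)) =
        (∑ ψ : AddChar G ℂ, ψ (-γ) * MoW D c P R ρ F k (fun q => ψ (cl q)) X) * W -
        ν * W * ∑ ψ : AddChar G ℂ, ψ (-γ) * ∑ B ∈ SF F X, ∏ q ∈ B, ψ (cl q) := by
      rw [hT, ← hWc, sum_mul, mul_sum, ← sum_sub_distrib]
      exact sum_congr rfl fun ψ _ => by ring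
    rw [e4]
    push_cast
    rw [e1, e2', sub_div]
    unfold MoW
    ring
  have h7 : |∑ B ∈ SB F cl γ X, (kW D c P R ρ F B : ℝ) ^ k - ν * (SB F cl γ X).card| * W ≤
      ε * X := by
    have h8 : |∑ B ∈ SB F cl γ X, (kW D c P R ρ F B : ℝ) ^ k - ν * (SB F cl γ X).card| * W =
        ‖((∑ B ∈ SB F cl γ X, (kW D c P R ρ F B : ℝ) ^ k -
          ν * (SB F cl γ X).card : ℝ) : ℂ) * W‖ := by
      rw [norm_mul, Complex.norm_real, Complex.norm_real, Real.norm_eq_abs, Real.norm_eq_abs,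
        abs_of_pos (by linarith : 0 < W)]
    rw [h8, e3, norm_div, Complex.norm_natCast, div_le_iff₀ hG]
    refine (norm_sum_le _ _).trans ?_
    have hcard : (Fintype.card (AddChar G ℂ) : ℝ) = Fintype.card G := by
      rw [AddChar.card_eq]
    calc _ ≤ ∑ _ψ : AddChar G ℂ, ε * X := by
          refine sum_le_sum fun ψ _ => ?_
          rw [norm_mul, AddChar.norm_apply, one_mul]
          exact h1 ψ X (hX1 ψ)
      _ = ε * X * Fintype.card G := by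
          rw [sum_const, card_univ, nsmul_eq_mul, hcard]
          ring
  exact (le_mul_of_one_le_right (abs_nonneg _) hW1).trans h7

/-! ### The regular case -/

section ne

variable {D : Dat2 ι κ} {c : κ → ZMod 2} {P : κ → E → ZMod 2} {R : Matrix E E (ZMod 2)}
  {F : Finset ι}

theorem MF_ne (hs : D.Sym) (hE : EngW D c F) (hR : ∀ e f, R e f = R f e)
    (hP : ∀ x : E → ZMod 2, (∀ j, ∑ e, P j e * x e = 0) → x = 0)
    (hc : ¬ ∃ γ : E → ZMod 2, ∀ j, ∑ e, P j e * γ e = c j) (ρ : ι → ZMod 2) (cl : ι → G)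
    (γ : G) (k : ℕ) : MF2 (SB F cl γ) (kW D c P R ρ F) (fun x => x ^ k) (Nk2 k) := by
  rcases Nat.eq_zero_or_pos k with rfl | hk
  · intro ε hε
    refine ⟨0, fun X _ => ?_⟩
    simp [Nk2]
    positivity
  · intro ε hε
    exact sum_kW hs hE P R ρ cl γ hk (Nk2 k) (by rw [TW_ne hs hR hP hc F k]; push_cast; rfl) ε hε

theorem kW_pow (D : Dat2 ι κ) (c : κ → ZMod 2) (P : κ → E → ZMod 2) (R : Matrix E E (ZMod 2))
    (ρ : ι → ZMod 2) (F B : Finset ι) : ∃ r, kW D c P R ρ F B = 2 ^ r := kcd_two_pow _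

theorem densW_ne_lower (hs : D.Sym) (hE : EngW D c F) (hR : ∀ e f, R e f = R f e)
    (hP : ∀ x : E → ZMod 2, (∀ j, ∑ e, P j e * x e = 0) → x = 0)
    (hc : ¬ ∃ γ : E → ZMod 2, ∀ j, ∑ e, P j e * γ e = c j) (ρ : ι → ZMod 2) (cl : ι → G)
    (γ : G) {κ₀ : ℝ} (hκ : κ₀ < cinf2) (ε : ℝ) (hε : 0 < ε) : ∃ X₀ : ℕ, ∀ X : ℕ, X₀ ≤ X →
      κ₀ * ((SB F cl γ X).card : ℝ) - ε * X ≤
        ((SB F cl γ X).filter fun B => (D.NV c P R (Va D c F B) (ta D ρ B) F).det ≠ 0).card := by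
  obtain ⟨X₀, h0⟩ := dens2_lower (kW_pow D c P R ρ F) (MF_ne hs hE hR hP hc ρ cl γ) hκ ε hε
  refine ⟨X₀, fun X hX => (h0 X hX).trans (le_of_eq ?_)⟩
  congr 2
  exact filter_congr fun B _ => kcd_eq_one

theorem densW_ne_upper (hs : D.Sym) (hE : EngW D c F) (hR : ∀ e f, R e f = R f e)
    (hP : ∀ x : E → ZMod 2, (∀ j, ∑ e, P j e * x e = 0) → x = 0)
    (hc : ¬ ∃ γ : E → ZMod 2, ∀ j, ∑ e, P j e * γ e = c j) (ρ : ι → ZMod 2) (cl : ι → G)
    (γ : G) {κ₀ : ℝ} (hκ : cinf2 < κ₀) (ε : ℝ) (hε : 0 < ε) : ∃ X₀ : ℕ, ∀ X : ℕ, X₀ ≤ X →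
      (((SB F cl γ X).filter fun B =>
        (D.NV c P R (Va D c F B) (ta D ρ B) F).det ≠ 0).card : ℝ) ≤
        κ₀ * ((SB F cl γ X).card : ℝ) + ε * X := by
  obtain ⟨X₀, h0⟩ := dens2_upper (kW_pow D c P R ρ F) (MF_ne hs hE hR hP hc ρ cl γ) hκ ε hε
  refine ⟨X₀, fun X hX => (le_of_eq ?_).trans (h0 X hX)⟩
  congr 2
  exact filter_congr fun B _ => kcd_eq_one.symm

end ne

/-! ### The case `c = 0` -/

section ker

variable {D : Dat2 ι κ} {P : κ → E → ZMod 2} {R : Matrix E E (ZMod 2)} {F : Finset ι}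

/-- The vector in the kernel. -/
def vk (F V : Finset ι) (E : Type) : F ⊕ (V ⊕ E) → ZMod 2 :=
  Sum.elim (fun _ => 1) (Sum.elim (fun _ => 0) fun _ => 0)

theorem vk_mem (h0 : ∀ e, ∑ t ∈ F, D.bd P t e = 0) (ρ : ι → ZMod 2)
    {B : Finset ι} (hB : Disjoint B F) (hs : D.Sym) :
    (D.NV 0 P R (Va D 0 F B) (ta D ρ B) F).mulVec (vk F (Va D 0 F B) E) = 0 := by
  have hv : vk F (Va D 0 F B) E = vec3 F (Va D 0 F B) (fun _ => 1) 0 0 := rfl
  have h2 : ∀ x : ZMod 2, x + x = 0 := z2_add_self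
  rw [hv]
  funext i
  rcases i with t | v | e
  · rw [NV_inl]
    have h3 : D.dg (0 : κ → ZMod 2) t = 0 := by
      unfold Dat2.dg
      exact sum_eq_zero fun j _ => by rw [Pi.zero_apply, zero_mul]
    simp [h3, h2]
  · rw [NV_inrl]
    have h3 := (mem_Va.1 v.2).2
    have hvB := (mem_Va.1 v.2).1
    have h4 : ∑ l ∈ F, D.s l v = 0 := by
      rw [Dat2.ex1] at h3
      have h5 : ∑ j, (0 : κ → ZMod 2) j * D.a (v : ι) j = 0 :=
        sum_eq_zero fun j _ => by rw [Pi.zero_apply, zero_mul]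
      rw [h5, zero_add] at h3
      rw [← h3]
      exact sum_congr rfl fun l hl => hs _ _ fun h => disjoint_left.1 hB hvB (h ▸ hl)
    simp [h4]
  · rw [NV_inrr]
    simp [h0 e]

theorem vk_ne (hF : F.Nonempty) (V : Finset ι) : vk F V E ≠ 0 := by
  obtain ⟨p, hp⟩ := hF
  intro h
  have := congrFun h (Sum.inl ⟨p, hp⟩)
  exact one_ne_zero this

/-- Half of the size of the kernel. -/
def kH (D : Dat2 ι κ) (P : κ → E → ZMod 2) (R : Matrix E E (ZMod 2)) (ρ : ι → ZMod 2)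
    (F B : Finset ι) : ℕ :=
  if kW D 0 P R ρ F B = 1 then 1 else kW D 0 P R ρ F B / 2

theorem kH_pow (D : Dat2 ι κ) (P : κ → E → ZMod 2) (R : Matrix E E (ZMod 2)) (ρ : ι → ZMod 2)
    (F B : Finset ι) : ∃ r, kH D P R ρ F B = 2 ^ r := by
  unfold kH
  obtain ⟨r, hr⟩ := kW_pow D 0 P R ρ F B
  split_ifs with h
  · exact ⟨0, rfl⟩
  · rcases r with _ | r
    · exact absurd hr h
    · refine ⟨r, ?_⟩
      rw [hr, pow_succ, Nat.mul_div_cancel _ (by norm_num)]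

theorem kW_ne_one (hF : F.Nonempty) (h0 : ∀ e, ∑ t ∈ F, D.bd P t e = 0) (hs : D.Sym)
    (ρ : ι → ZMod 2) {B : Finset ι} (hB : Disjoint B F) : kW D 0 P R ρ F B ≠ 1 := by
  intro h
  have h1 := kcd_eq_one.1 h
  exact h1 (Matrix.exists_mulVec_eq_zero_iff.1
    ⟨_, vk_ne hF _, vk_mem h0 ρ hB hs⟩)

theorem kW_eq (hF : F.Nonempty) (h0 : ∀ e, ∑ t ∈ F, D.bd P t e = 0) (hs : D.Sym)
    (ρ : ι → ZMod 2) {B : Finset ι} (hB : Disjoint B F) :
    (kW D 0 P R ρ F B : ℝ) = 2 * kH D P R ρ F B := by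
  have h1 := kW_ne_one (R := R) hF h0 hs ρ hB
  unfold kH
  rw [if_neg h1]
  obtain ⟨r, hr⟩ := kW_pow D 0 P R ρ F B
  rcases r with _ | r
  · exact absurd hr h1
  · rw [hr, pow_succ, Nat.mul_div_cancel _ (by norm_num)]
    push_cast
    ring

theorem kH_eq_one (hF : F.Nonempty) (h0 : ∀ e, ∑ t ∈ F, D.bd P t e = 0) (hs : D.Sym)
    (ρ : ι → ZMod 2) {B : Finset ι} (hB : Disjoint B F) : kH D P R ρ F B = 1 ↔
      ∀ w, (D.NV 0 P R (Va D 0 F B) (ta D ρ B) F).mulVec w = 0 →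
        w = 0 ∨ w = vk F (Va D 0 F B) E := by
  rw [← kcd_eq_two (vk_ne hF _) (vk_mem h0 ρ hB hs)]
  have h2 := kW_eq (R := R) hF h0 hs ρ hB
  constructor
  · intro h
    rw [h] at h2
    have h3 : (kW D 0 P R ρ F B : ℝ) = (2 : ℕ) := by
      rw [h2]
      norm_num
    exact_mod_cast h3
  · intro h
    have h3 : (kW D 0 P R ρ F B : ℝ) = 2 := by
      have h4 : kW D 0 P R ρ F B = 2 := h
      rw [h4]
      norm_num
    rw [h3] at h2
    have h4 : (kH D P R ρ F B : ℝ) = 1 := by linarith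
    exact_mod_cast h4

theorem MF_ker (hs : D.Sym) (hE : EngW D 0 F) (hR : ∀ e f, R e f = R f e)
    (hP : ∀ x : E → ZMod 2, (∀ j, ∑ e, P j e * x e = 0) → x = 0) (hF : F.Nonempty)
    (h0 : ∀ e, ∑ t ∈ F, D.bd P t e = 0) (ρ : ι → ZMod 2) (cl : ι → G)
    (γ : G) (k : ℕ) : MF2 (SB F cl γ) (kH D P R ρ F) (fun x => x ^ k) (Nk2 k) := by
  rcases Nat.eq_zero_or_pos k with rfl | hk
  · intro ε hε
    refine ⟨0, fun X _ => ?_⟩
    simp [Nk2]
    positivity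
  · intro ε hε
    obtain ⟨X₀, h1⟩ := sum_kW hs hE P R ρ cl γ hk (Nk2 k * 2 ^ k)
      (by rw [TW_ker hs hR hP hF h0 k]; push_cast; ring) ε hε
    refine ⟨X₀, fun X hX => ?_⟩
    have h2 := h1 X hX
    have h3 : ∑ B ∈ SB F cl γ X, (kW D 0 P R ρ F B : ℝ) ^ k =
        2 ^ k * ∑ B ∈ SB F cl γ X, (kH D P R ρ F B : ℝ) ^ k := by
      rw [mul_sum]
      refine sum_congr rfl fun B hB => ?_
      rw [kW_eq hF h0 hs ρ (mem_SB.1 hB).2.1, mul_pow]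
    have h4 : ∑ B ∈ SB F cl γ X, (kW D 0 P R ρ F B : ℝ) ^ k -
        Nk2 k * 2 ^ k * (SB F cl γ X).card =
        2 ^ k * (∑ B ∈ SB F cl γ X, (kH D P R ρ F B : ℝ) ^ k -
          Nk2 k * (SB F cl γ X).card) := by
      rw [h3]
      ring
    rw [h4, abs_mul, abs_of_pos (by positivity : (0 : ℝ) < 2 ^ k)] at h2
    exact (le_mul_of_one_le_left (abs_nonneg _) (one_le_pow₀ (by norm_num))).trans h2

theorem densW_ker_lower (hs : D.Sym) (hE : EngW D 0 F) (hR : ∀ e f, R e f = R f e)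
    (hP : ∀ x : E → ZMod 2, (∀ j, ∑ e, P j e * x e = 0) → x = 0) (hF : F.Nonempty)
    (h0 : ∀ e, ∑ t ∈ F, D.bd P t e = 0) (ρ : ι → ZMod 2) (cl : ι → G)
    (γ : G) {κ₀ : ℝ} (hκ : κ₀ < cinf2) (ε : ℝ) (hε : 0 < ε) : ∃ X₀ : ℕ, ∀ X : ℕ, X₀ ≤ X →
      κ₀ * ((SB F cl γ X).card : ℝ) - ε * X ≤
        ((SB F cl γ X).filter fun B => ∀ w,
          (D.NV 0 P R (Va D 0 F B) (ta D ρ B) F).mulVec w = 0 →
            w = 0 ∨ w = vk F (Va D 0 F B) E).card := by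
  obtain ⟨X₀, h1⟩ := dens2_lower (kH_pow D P R ρ F) (MF_ker hs hE hR hP hF h0 ρ cl γ) hκ ε hε
  refine ⟨X₀, fun X hX => (h1 X hX).trans (le_of_eq ?_)⟩
  congr 2
  exact filter_congr fun B hB => kH_eq_one hF h0 hs ρ (mem_SB.1 hB).2.1

theorem densW_ker_upper (hs : D.Sym) (hE : EngW D 0 F) (hR : ∀ e f, R e f = R f e)
    (hP : ∀ x : E → ZMod 2, (∀ j, ∑ e, P j e * x e = 0) → x = 0) (hF : F.Nonempty)
    (h0 : ∀ e, ∑ t ∈ F, D.bd P t e = 0) (ρ : ι → ZMod 2) (cl : ι → G)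
    (γ : G) {κ₀ : ℝ} (hκ : cinf2 < κ₀) (ε : ℝ) (hε : 0 < ε) : ∃ X₀ : ℕ, ∀ X : ℕ, X₀ ≤ X →
      (((SB F cl γ X).filter fun B => ∀ w,
          (D.NV 0 P R (Va D 0 F B) (ta D ρ B) F).mulVec w = 0 →
            w = 0 ∨ w = vk F (Va D 0 F B) E).card : ℝ) ≤
        κ₀ * ((SB F cl γ X).card : ℝ) + ε * X := by
  obtain ⟨X₀, h1⟩ := dens2_upper (kH_pow D P R ρ F) (MF_ker hs hE hR hP hF h0 ρ cl γ) hκ ε hε
  refine ⟨X₀, fun X hX => (le_of_eq ?_).trans (h1 X hX)⟩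
  congr 2
  exact filter_congr fun B hB => (kH_eq_one hF h0 hs ρ (mem_SB.1 hB).2.1).symm

end ker

end

end Pool.Agent.Lib.MP_1a91b9_ntQ.M
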