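import Pool.Agent.Lib.MP_1a91b9_ntQ.M.MatW

/-!
# MP_1a91b9_nt (quadratic twists of a fixed curve), part M: the weighted moments

The weighted `k`-th moment of the size of the kernel as a sum over the labels of the fixed part.
-/

set_option autoImplicit false
set_option linter.unusedSectionVars false

namespace Pool.Agent.Lib.MP_1a91b9_ntQ.M

open Finset Pool.Agent.Lib.MP_1a91b9_ntH Pool.Agent.Lib.MP_1a91b9_ntQ.Da

noncomputable section

variable {ι : Type} [DecidableEq ι] {κ : Type} [Fintype κ] [DecidableEq κ] {E : Type} [Fintype E]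
  [DecidableEq E] {k : ℕ}

/-- The weight of the label `l` at the prime `q`. -/
def ww {L : Type} [DecidableEq L] (D : Dat2 ι κ) (F : Finset ι) (c : κ → ZMod 2) (m : ℕ)
    (l0 l : L) (q : ι) : ℂ :=
  if D.ex1 F c q = 0 then (m : ℂ)⁻¹ else if l = l0 then 1 else 0

/-- The extension by zero of a labelling of `V`. -/
def exl (V : Finset ι) (f : V → Lab2 k) (q : ι) : Lab2 k := if h : q ∈ V then f ⟨q, h⟩ else 0

theorem exl_coe (V : Finset ι) (f : V → Lab2 k) (v : V) : exl V f v = f v := by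
  rw [exl, dif_pos v.2]

theorem exl_of_not {V : Finset ι} (f : V → Lab2 k) {q : ι} (h : q ∉ V) : exl V f q = 0 := by
  rw [exl, dif_neg h]

/-- The sum over the labellings of `B` with the weights is a sum over the labellings of the active
primes. -/
theorem sum_lab (D : Dat2 ι κ) (c : κ → ZMod 2) (F B : Finset ι) (G : (B → Lab2 k) → ℂ) :
    ∑ f : B → Lab2 k, (∏ j : B, ww D F c (2 ^ k) 0 (f j) j) * G f =
      ((2 ^ k : ℂ)⁻¹) ^ (Va D c F B).card *
        ∑ f : Va D c F B → Lab2 k, G fun j : B => exl (Va D c F B) f j := by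
  rw [mul_sum]
  symm
  refine Fintype.sum_of_injective (fun (f : Va D c F B → Lab2 k) (j : B) =>
    exl (Va D c F B) f j) ?_ _ _ ?_ ?_
  · intro f f' h
    funext v
    have h1 := congrFun h ⟨v.1, Va_subset D c F B v.2⟩
    dsimp only at h1
    rwa [exl_coe, exl_coe] at h1
  · intro f hf
    have h1 : ∃ j : B, (j : ι) ∉ Va D c F B ∧ f j ≠ 0 := by
      by_contra hcon
      push Not at hcon
      refine hf ⟨fun v => f ⟨v.1, Va_subset D c F B v.2⟩, ?_⟩
      funext j
      dsimp only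
      by_cases hj : (j : ι) ∈ Va D c F B
      · rw [exl, dif_pos hj]
      · rw [exl_of_not _ hj, hcon j hj]
    obtain ⟨j, hj, hj0⟩ := h1
    have h2 : ∏ j : B, ww D F c (2 ^ k) 0 (f j) j = 0 := by
      refine prod_eq_zero (mem_univ j) ?_
      have h3 : ¬ D.ex1 F c j = 0 := fun h => hj (mem_Va.2 ⟨j.2, h⟩)
      rw [ww, if_neg h3, if_neg hj0]
    rw [h2, zero_mul]
  · intro f
    have h1 : ∏ j : B, ww D F c (2 ^ k) (0 : Lab2 k) (exl (Va D c F B) f j) j =
        ((2 ^ k : ℂ)⁻¹) ^ (Va D c F B).card := by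
      have h2 : ∏ j : B, ww D F c (2 ^ k) (0 : Lab2 k) (exl (Va D c F B) f j) j =
          ∏ q ∈ B, if D.ex1 F c q = 0 then (2 ^ k : ℂ)⁻¹ else 1 := by
        rw [← prod_coe_sort B]
        refine prod_congr rfl fun j _ => ?_
        unfold ww
        by_cases hj : D.ex1 F c j = 0
        · rw [if_pos hj, if_pos hj]
          push_cast
          rfl
        · have h3 : (j : ι) ∉ Va D c F B := fun h => hj (mem_Va.1 h).2
          rw [if_neg hj, if_neg hj, exl_of_not _ h3, if_pos rfl]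
      rw [h2, ← prod_filter, prod_const]
      rfl
    rw [h1]

/-- The sums over the labellings of a sum type. -/
theorem sum_lab3 {A V : Type} [Fintype A] [Fintype V] [DecidableEq A] [DecidableEq V]
    (G : (A ⊕ (V ⊕ E) → Lab2 k) → ℂ) :
    ∑ f : A ⊕ (V ⊕ E) → Lab2 k, G f =
      ∑ a : A → Lab2 k, ∑ m : E → Lab2 k, ∑ f : V → Lab2 k, G (Sum.elim a (Sum.elim f m)) := by
  have h1 : ∑ f : A ⊕ (V ⊕ E) → Lab2 k, G f =
      ∑ p : (A → Lab2 k) × (V ⊕ E → Lab2 k), G (Sum.elim p.1 p.2) := by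
    refine Fintype.sum_equiv (Equiv.sumArrowEquivProdArrow A (V ⊕ E) (Lab2 k)) _ _ fun f => ?_
    congr 1
    exact (Sum.elim_comp_inl_inr f).symm
  have h2 : ∀ a : A → Lab2 k, ∑ g : V ⊕ E → Lab2 k, G (Sum.elim a g) =
      ∑ p : (V → Lab2 k) × (E → Lab2 k), G (Sum.elim a (Sum.elim p.1 p.2)) := by
    intro a
    refine Fintype.sum_equiv (Equiv.sumArrowEquivProdArrow V E (Lab2 k)) _ _ fun f => ?_
    congr 2
    exact (Sum.elim_comp_inl_inr f).symm
  rw [h1, Fintype.sum_prod_type]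
  refine sum_congr rfl fun a _ => ?_
  rw [h2 a, Fintype.sum_prod_type_right]

variable [PS ι]

open Classical in
/-- The squarefree integers prime to `F`. -/
def SF (F : Finset ι) (X : ℕ) : Finset (Finset ι) := (Sx ι X).filter fun B => Disjoint B F

theorem mem_SF {F : Finset ι} {X : ℕ} {B : Finset ι} :
    B ∈ SF F X ↔ B ∈ Sx ι X ∧ Disjoint B F := by
  classical
  rw [SF, mem_filter]

/-- The weighted `k`-th moment. -/
def MoW (D : Dat2 ι κ) (c : κ → ZMod 2) (P : κ → E → ZMod 2) (R : Matrix E E (ZMod 2))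
    (ρ : ι → ZMod 2) (F : Finset ι) (k : ℕ) (g : ι → ℂ) (X : ℕ) : ℂ :=
  ∑ B ∈ SF F X, (∏ q ∈ B, g q) * (kW D c P R ρ F B : ℂ) ^ k

/-- The sum of the engine. -/
def EnS (D : Dat2 ι κ) (c : κ → ZMod 2) (F : Finset ι) (Λ : LS2 (Lab2 k) ι κ)
    (h : Lab2 k → ι → ZMod 2) (g : ι → ℂ) (X : ℕ) : ℂ :=
  ∑ B ∈ SF F X, (∏ q ∈ B, g q) * ∑ f : B → Lab2 k,
    (∏ j : B, ww D F c Λ.m 0 (f j) j) * e2 (D.eS Λ B f + ∑ j : B, h (f j) j)

theorem MoW_eq {D : Dat2 ι κ} (hs : D.Sym) (c : κ → ZMod 2) (P : κ → E → ZMod 2)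
    (R : Matrix E E (ZMod 2)) (ρ : ι → ZMod 2) (F : Finset ι) (k : ℕ) (g : ι → ℂ) (X : ℕ) :
    MoW D c P R ρ F k g X * (2 ^ k) ^ (F.card + Fintype.card E) =
      ∑ a : F → Lab2 k, ∑ m : E → Lab2 k, e2 (RF (D.NB c P R F) (Sum.elim a m)) *
        EnS D c F (LSW k P F (exl F a) m) (fun l q => Q2 l * ρ q) g X := by
  have hk : ((2 : ℂ) ^ k) ≠ 0 := pow_ne_zero _ (by norm_num)
  have key : ∀ B ∈ SF F X, (∏ q ∈ B, g q) * (kW D c P R ρ F B : ℂ) ^ k *
      (2 ^ k) ^ (F.card + Fintype.card E) =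
      ∑ a : F → Lab2 k, ∑ m : E → Lab2 k, e2 (RF (D.NB c P R F) (Sum.elim a m)) *
        ((∏ q ∈ B, g q) * ∑ f : B → Lab2 k,
          (∏ j : B, ww D F c (2 ^ k) 0 (f j) j) *
            e2 (D.eS (LSW k P F (exl F a) m) B f + ∑ j : B, Q2 (f j) * ρ j)) := by
    intro B hB
    have hBF : Disjoint B F := (mem_SF.1 hB).2
    have h1 := kcd_pow k (D.NV c P R (Va D c F B) (ta D ρ B) F)
    rw [sum_lab3] at h1
    have h2 : ∀ (a : F → Lab2 k) (m : E → Lab2 k) (f : Va D c F B → Lab2 k),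
        e2 (RF (D.NV c P R (Va D c F B) (ta D ρ B) F) (Sum.elim a (Sum.elim f m))) =
          e2 (RF (D.NB c P R F) (Sum.elim a m)) *
            e2 (D.eS (LSW k P F (exl F a) m) B (fun j : B => exl (Va D c F B) f j) +
              ∑ j : B, Q2 (exl (Va D c F B) f j) * ρ j) := by
      intro a m f
      have h3 := RF_NV hs c P R ρ hBF (exl F a) (exl (Va D c F B) f) m
        fun b _ hb => exl_of_not f hb
      have e1 : (fun t : F => exl F a t) = a := funext fun t => exl_coe F a t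
      have e2' : (fun v : Va D c F B => exl (Va D c F B) f v) = f :=
        funext fun v => exl_coe _ f v
      rw [e1, e2'] at h3
      rw [h3, e2_add]
    have h4 : ∀ (a : F → Lab2 k) (m : E → Lab2 k),
        e2 (RF (D.NB c P R F) (Sum.elim a m)) *
        ((∏ q ∈ B, g q) * ∑ f : B → Lab2 k, (∏ j : B, ww D F c (2 ^ k) 0 (f j) j) *
            e2 (D.eS (LSW k P F (exl F a) m) B f + ∑ j : B, Q2 (f j) * ρ j)) =
        (∏ q ∈ B, g q) * ((2 ^ k : ℂ)⁻¹) ^ (Va D c F B).card *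
          ∑ f : Va D c F B → Lab2 k,
            e2 (RF (D.NV c P R (Va D c F B) (ta D ρ B) F) (Sum.elim a (Sum.elim f m))) := by
      intro a m
      rw [sum_lab D c F B fun f => e2 (D.eS (LSW k P F (exl F a) m) B f +
        ∑ j : B, Q2 (f j) * ρ j), sum_congr rfl fun f _ => h2 a m f, ← mul_sum]
      ring
    simp only [h4]
    rw [sum_congr rfl fun a _ => (mul_sum _ _ _).symm, ← mul_sum, ← h1]
    have h5 : Fintype.card (F ⊕ (Va D c F B ⊕ E)) =
        F.card + Fintype.card E + (Va D c F B).card := by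
      rw [Fintype.card_sum, Fintype.card_sum, Fintype.card_coe, Fintype.card_coe]
      ring
    rw [h5, pow_add _ (F.card + Fintype.card E)]
    have h6 : ((2 ^ k : ℂ)⁻¹) ^ (Va D c F B).card * (2 ^ k) ^ (Va D c F B).card = 1 := by
      rw [← mul_pow, inv_mul_cancel₀ hk, one_pow]
    unfold kW
    linear_combination (-(∏ q ∈ B, g q) *
      (kcd (D.NV c P R (Va D c F B) (ta D ρ B) F) : ℂ) ^ k *
        (2 ^ k) ^ (F.card + Fintype.card E)) * h6
  rw [MoW, sum_mul, sum_congr rfl key, sum_comm]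
  refine sum_congr rfl fun a _ => ?_
  rw [sum_comm]
  refine sum_congr rfl fun m _ => ?_
  rw [EnS, mul_sum]
  rfl

end

end Pool.Agent.Lib.MP_1a91b9_ntQ.M
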