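import Pool.Agent.Lib.MP_1a91b9_ntQ.D.Mat

/-!
# MP_1a91b9_nt (quadratic twists of a fixed curve), part M: powers of the size of a kernel

The `k`-th power of the size of the kernel of a matrix over `ZMod 2` as a sum over labellings of the
index set by pairs of vectors of length `k`.
-/

set_option autoImplicit false
set_option linter.unusedSectionVars false

namespace Pool.Agent.Lib.MP_1a91b9_ntQ.M

open Finset Pool.Agent.Lib.MP_1a91b9_ntH Pool.Agent.Lib.MP_1a91b9_ntQ.Da

noncomputable section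

variable {I : Type} [Fintype I] [DecidableEq I]

/-- The size of the kernel. -/
def kcd (A : Matrix I I (ZMod 2)) : ℕ := Fintype.card {v : I → ZMod 2 // A.mulVec v = 0}

/-- The bijection between tuples of pairs of vectors and labellings. -/
def labE (k : ℕ) (I : Type) : (Fin k → (I → ZMod 2) × (I → ZMod 2)) ≃ (I → Lab2 k) where
  toFun g := fun i => (fun r => (g r).1 i, fun r => (g r).2 i)
  invFun f r := (fun i => (f i).1 r, fun i => (f i).2 r)
  left_inv _ := rfl
  right_inv _ := rfl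

theorem lab_exp (k : ℕ) (A : Matrix I I (ZMod 2)) (g : Fin k → (I → ZMod 2) × (I → ZMod 2)) :
    ∑ r, (g r).2 ⬝ᵥ A.mulVec (g r).1 = RF A (labE k I g) := by
  unfold RF
  have h1 : ∀ r, (g r).2 ⬝ᵥ A.mulVec (g r).1 =
      ∑ i, ∑ j, A i j * ((g r).2 i * (g r).1 j) := by
    intro r
    rw [dotProduct]
    refine sum_congr rfl fun i _ => ?_
    rw [Matrix.mulVec, dotProduct, mul_sum]
    exact sum_congr rfl fun j _ => by ring
  rw [sum_congr rfl fun r _ => h1 r, sum_comm]
  refine sum_congr rfl fun i _ => ?_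
  rw [sum_comm]
  refine sum_congr rfl fun j _ => ?_
  rw [← mul_sum]
  rfl

theorem kcd_mul (A : Matrix I I (ZMod 2)) : (kcd A : ℂ) * 2 ^ Fintype.card I =
    ∑ p : (I → ZMod 2) × (I → ZMod 2), e2 (p.2 ⬝ᵥ A.mulVec p.1) := by
  rw [Fintype.sum_prod_type]
  have h1 : ∀ v : I → ZMod 2, ∑ w : I → ZMod 2, e2 (w ⬝ᵥ A.mulVec v) =
      if A.mulVec v = 0 then (2 ^ Fintype.card I : ℂ) else 0 := by
    intro v
    rw [sum_dotE]
  simp only [h1]
  rw [← sum_filter, sum_const, nsmul_eq_mul, kcd, Fintype.card_subtype]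

/-- The expansion of the `k`-th power of the size of the kernel. -/
theorem kcd_pow (k : ℕ) (A : Matrix I I (ZMod 2)) :
    (kcd A : ℂ) ^ k * (2 ^ k) ^ Fintype.card I = ∑ f : I → Lab2 k, e2 (RF A f) := by
  have h : ((2 : ℂ) ^ k) ^ Fintype.card I = (2 ^ Fintype.card I) ^ k := by
    rw [← pow_mul, ← pow_mul, mul_comm]
  rw [h, ← mul_pow, kcd_mul, Fintype.sum_pow]
  refine Fintype.sum_equiv (labE k I) _ _ ?_
  intro g
  rw [← e2_sum, lab_exp]

/-- The size of the kernel is a power of `2`. -/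
theorem kcd_two_pow (A : Matrix I I (ZMod 2)) : ∃ r, kcd A = 2 ^ r := by
  refine ⟨Module.finrank (ZMod 2) (LinearMap.ker A.mulVecLin), ?_⟩
  have h1 : kcd A = Nat.card (LinearMap.ker A.mulVecLin) := by
    unfold kcd
    rw [← Nat.card_eq_fintype_card]
    exact Nat.card_congr (Equiv.subtypeEquivRight (p := fun v : I → ZMod 2 => A.mulVec v = 0)
      (q := fun v : I → ZMod 2 => v ∈ LinearMap.ker A.mulVecLin) fun v => by
        rw [LinearMap.mem_ker, Matrix.mulVecLin_apply])
  rw [h1, Module.natCard_eq_pow_finrank (K := ZMod 2), Nat.card_zmod]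

theorem kcd_eq_one {A : Matrix I I (ZMod 2)} : kcd A = 1 ↔ A.det ≠ 0 := by
  rw [Ne, ← Matrix.exists_mulVec_eq_zero_iff, kcd, Fintype.card_eq_one_iff]
  constructor
  · rintro ⟨x, hx⟩ ⟨v, hv, hv0⟩
    have h1 := hx ⟨v, hv0⟩
    have h2 := hx ⟨0, Matrix.mulVec_zero _⟩
    exact hv (congrArg Subtype.val (h1.trans h2.symm))
  · intro h
    refine ⟨⟨0, Matrix.mulVec_zero _⟩, fun y => ?_⟩
    by_contra hne
    exact h ⟨y.1, fun h0 => hne (Subtype.ext h0), y.2⟩

/-- Two elements in the kernel. -/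
theorem kcd_eq_two {A : Matrix I I (ZMod 2)} {u : I → ZMod 2} (hu : u ≠ 0)
    (hu0 : A.mulVec u = 0) : kcd A = 2 ↔ ∀ w, A.mulVec w = 0 → w = 0 ∨ w = u := by
  classical
  have hs : ({⟨0, Matrix.mulVec_zero _⟩, ⟨u, hu0⟩} : Finset {v : I → ZMod 2 // A.mulVec v = 0}).card
      = 2 := by
    rw [card_pair]
    intro h
    exact hu (congrArg Subtype.val h).symm
  constructor
  · intro h w hw
    have h1 : ({⟨0, Matrix.mulVec_zero _⟩, ⟨u, hu0⟩} :
        Finset {v : I → ZMod 2 // A.mulVec v = 0}) = univ := by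
      rw [← card_eq_iff_eq_univ, hs]
      exact h.symm
    have h2 : (⟨w, hw⟩ : {v : I → ZMod 2 // A.mulVec v = 0}) ∈
        ({⟨0, Matrix.mulVec_zero _⟩, ⟨u, hu0⟩} : Finset {v : I → ZMod 2 // A.mulVec v = 0}) := by
      rw [h1]
      exact mem_univ _
    rw [mem_insert, mem_singleton] at h2
    rcases h2 with h2 | h2
    · exact Or.inl (congrArg Subtype.val h2)
    · exact Or.inr (congrArg Subtype.val h2)
  · intro h
    have h1 : ({⟨0, Matrix.mulVec_zero _⟩, ⟨u, hu0⟩} :
        Finset {v : I → ZMod 2 // A.mulVec v = 0}) = univ := by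
      rw [eq_univ_iff_forall]
      intro x
      rw [mem_insert, mem_singleton]
      rcases h x.1 x.2 with h1 | h1
      · exact Or.inl (Subtype.ext h1)
      · exact Or.inr (Subtype.ext h1)
    rw [h1] at hs
    exact hs

end

end Pool.Agent.Lib.MP_1a91b9_ntQ.M
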