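import Pool.Agent.Lib.MP_1a91b9_ntQ.M.Ker
import Pool.Agent.Lib.MP_1a91b9_ntQ.D.Cl4B

/-!
# MP_1a91b9_nt (quadratic twists of a fixed curve), part M: the matrix of `B`

`F` is a fixed set of primes, `B` runs over the sets of primes disjoint from `F`; the active primes
of `B` are those at which the character of `F` and `c` is trivial. The matrix has the rows `F`, the
active primes of `B` and the border `E`. The `k`-th power of the size of its kernel is a sum over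
labellings of `B`, where the inactive primes have the label `0`.
-/

set_option autoImplicit false
set_option linter.unusedSectionVars false

namespace Pool.Agent.Lib.MP_1a91b9_ntQ.M

open Finset Pool.Agent.Lib.MP_1a91b9_ntH Pool.Agent.Lib.MP_1a91b9_ntQ.Da

noncomputable section

variable {ι : Type} [DecidableEq ι] {κ : Type} [Fintype κ] [DecidableEq κ] {E : Type} [Fintype E]
  [DecidableEq E] {k : ℕ}

/-- The active primes of `B`. -/
def Va (D : Dat2 ι κ) (c : κ → ZMod 2) (F B : Finset ι) : Finset ι :=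
  B.filter fun b => D.ex1 F c b = 0

theorem mem_Va {D : Dat2 ι κ} {c : κ → ZMod 2} {F B : Finset ι} {b : ι} :
    b ∈ Va D c F B ↔ b ∈ B ∧ D.ex1 F c b = 0 := mem_filter

theorem Va_subset (D : Dat2 ι κ) (c : κ → ZMod 2) (F B : Finset ι) : Va D c F B ⊆ B :=
  filter_subset _ _

/-- The diagonal. -/
def ta (D : Dat2 ι κ) (ρ : ι → ZMod 2) (B : Finset ι) (b : ι) : ZMod 2 :=
  ρ b + ∑ l ∈ B.erase b, D.s b l

/-- The size of the kernel. -/
def kW (D : Dat2 ι κ) (c : κ → ZMod 2) (P : κ → E → ZMod 2) (R : Matrix E E (ZMod 2))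
    (ρ : ι → ZMod 2) (F B : Finset ι) : ℕ :=
  kcd (D.NV c P R (Va D c F B) (ta D ρ B) F)

/-- The label system of the `k`-th moment, with the labels `α` at the primes of `F` and `m` at the
border. -/
def LSW (k : ℕ) (P : κ → E → ZMod 2) (F : Finset ι) (α : ι → Lab2 k) (m : E → Lab2 k) :
    LS2 (Lab2 k) ι κ where
  Phi := PhiQ
  c := fun l j => ∑ e, P j e * B2 l (m e)
  t := fun l p => B2 l (α p)
  B := F
  m := 2 ^ k

theorem lin_LSW (D : Dat2 ι κ) (P : κ → E → ZMod 2) (F : Finset ι) (α : ι → Lab2 k)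
    (m : E → Lab2 k) (l : Lab2 k) (q : ι) : D.lin (LSW k P F α m) l q =
      ∑ e, D.bd P q e * B2 l (m e) + ∑ p ∈ F, B2 l (α p) * D.s q p := by
  show ∑ j, (∑ e, P j e * B2 l (m e)) * D.a q j + _ = _
  congr 1
  unfold Dat2.bd
  simp only [sum_mul]
  rw [sum_comm]
  exact sum_congr rfl fun e _ => sum_congr rfl fun j _ => by ring

theorem B2_dot (l m : Lab2 k) : B2 l m = l.2 ⬝ᵥ m.1 + m.2 ⬝ᵥ l.1 := by
  rw [B2, dotProduct_comm l.1 m.2, dotProduct_comm m.1 l.2, add_comm]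

theorem PhiQ_zero (m : Lab2 k) : PhiQ 0 m = 0 := by
  unfold PhiQ
  exact zero_dotProduct _

theorem PhiQ_eq (l m : Lab2 k) : PhiQ l m = Q2 l + l.2 ⬝ᵥ m.1 := by
  unfold PhiQ Q2
  rw [dotProduct_add, dotProduct_comm l.2 l.1]

/-- The exponent of a labelling of the index set. -/
theorem RF_NV {D : Dat2 ι κ} (hs : D.Sym) (c : κ → ZMod 2) (P : κ → E → ZMod 2)
    (R : Matrix E E (ZMod 2)) (ρ : ι → ZMod 2) {F B : Finset ι} (hFB : Disjoint B F)
    (α φ : ι → Lab2 k) (m : E → Lab2 k) (hφ : ∀ b ∈ B, b ∉ Va D c F B → φ b = 0) :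
    RF (D.NV c P R (Va D c F B) (ta D ρ B) F)
        (Sum.elim (fun t : F => α t) (Sum.elim (fun v : Va D c F B => φ v) m)) =
      RF (D.NB c P R F) (Sum.elim (fun t : F => α t) m) +
        (D.eS (LSW k P F α m) B (fun j : B => φ j) + ∑ j : B, Q2 (φ j) * ρ j) := by
  set V := Va D c F B with hV
  have hVB : V ⊆ B := Va_subset D c F B
  -- sums over `B`
  have hres : ∀ (G : ι → ZMod 2), (∀ b ∈ B, φ b = 0 → G b = 0) →
      ∑ j : B, G j = ∑ v : V, G v := by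
    intro G hG
    rw [sum_coe_sort B G, sum_coe_sort V G]
    symm
    exact sum_subset hVB fun b hb hb' => hG b hb (hφ b hb hb')
  have e1 : D.eS (LSW k P F α m) B (fun j : B => φ j) + ∑ j : B, Q2 (φ j) * ρ j =
      ∑ v : V, (∑ e, D.bd P v e * B2 (φ v) (m e) + ∑ p ∈ F, B2 (φ v) (α p) * D.s v p +
        ∑ l ∈ B, PhiQ (φ v) (φ l) * D.s v l + Q2 (φ v) * ρ v) := by
    unfold Dat2.eS
    rw [← sum_add_distrib, ← sum_add_distrib]
    have h1 : ∀ j : B, D.lin (LSW k P F α m) (φ j) j +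
        ∑ l : B, (LSW k P F α m).Phi (φ j) (φ l) * D.s j l + Q2 (φ j) * ρ j =
        (fun b : ι => ∑ e, D.bd P b e * B2 (φ b) (m e) + ∑ p ∈ F, B2 (φ b) (α p) * D.s b p +
        ∑ l ∈ B, PhiQ (φ b) (φ l) * D.s b l + Q2 (φ b) * ρ b) j := by
      intro j
      rw [lin_LSW]
      dsimp only
      rw [← sum_coe_sort B fun l => PhiQ (φ j) (φ l) * D.s j l]
      rfl
    rw [sum_congr rfl fun j _ => h1 j]
    refine hres (fun b : ι => ∑ e, D.bd P b e * B2 (φ b) (m e) +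
      ∑ p ∈ F, B2 (φ b) (α p) * D.s b p + ∑ l ∈ B, PhiQ (φ b) (φ l) * D.s b l +
      Q2 (φ b) * ρ b) fun b _ hb => ?_
    simp only [hb, B2_zero', PhiQ_zero, Q2_zero, mul_zero, zero_mul, sum_const_zero, add_zero]
  rw [e1]
  -- the diagonal of `V`
  have e2 : ∀ v : V, ∑ l ∈ B, PhiQ (φ v) (φ l) * D.s v l + Q2 (φ v) * ρ v =
      ∑ v' : V, (if v = v' then ta D ρ B v else D.s v v') * ((φ v).2 ⬝ᵥ (φ v').1) := by
    intro v
    have hvB : (v : ι) ∈ B := hVB v.2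
    have h1 : ∑ v' : V, (if v = v' then ta D ρ B v else D.s v v') * ((φ v).2 ⬝ᵥ (φ v').1) =
        ∑ u ∈ V, (if (v : ι) = u then ta D ρ B v else D.s v u) * ((φ v).2 ⬝ᵥ (φ u).1) := by
      rw [← sum_coe_sort V]
      refine sum_congr rfl fun u _ => ?_
      simp only [Subtype.ext_iff]
    have h2 : ∑ u ∈ V, (if (v : ι) = u then ta D ρ B v else D.s v u) * ((φ v).2 ⬝ᵥ (φ u).1) =
        ∑ u ∈ B, (if (v : ι) = u then ta D ρ B v else D.s v u) * ((φ v).2 ⬝ᵥ (φ u).1) := by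
      refine sum_subset hVB fun b hb hb' => ?_
      rw [hφ b hb hb']
      show _ * ((φ v).2 ⬝ᵥ (0 : Fin k → ZMod 2)) = 0
      rw [dotProduct_zero, mul_zero]
    rw [h1, h2, ← add_sum_erase B _ hvB, ← add_sum_erase B _ hvB, if_pos rfl, PhiQ_self, zero_mul,
      zero_add]
    have h3 : ∑ u ∈ B.erase v, (if (v : ι) = u then ta D ρ B v else D.s v u) *
        ((φ v).2 ⬝ᵥ (φ u).1) = ∑ u ∈ B.erase v, D.s v u * ((φ v).2 ⬝ᵥ (φ u).1) :=
      sum_congr rfl fun u hu => by rw [if_neg (ne_of_mem_erase hu).symm]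
    have h4 : ∑ u ∈ B.erase v, PhiQ (φ v) (φ u) * D.s v u =
        Q2 (φ v) * ∑ u ∈ B.erase v, D.s v u + ∑ u ∈ B.erase v, D.s v u * ((φ v).2 ⬝ᵥ (φ u).1) := by
      rw [mul_sum, ← sum_add_distrib]
      refine sum_congr rfl fun u _ => ?_
      rw [PhiQ_eq]
      ring
    have h5 : (φ v).2 ⬝ᵥ (φ v).1 = Q2 (φ v) := by
      rw [Q2, dotProduct_comm]
    rw [h3, h4, h5, ta]
    ring
  have e3 : ∑ v : V, (∑ e, D.bd P v e * B2 (φ v) (m e) + ∑ p ∈ F, B2 (φ v) (α p) * D.s v p +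
        ∑ l ∈ B, PhiQ (φ v) (φ l) * D.s v l + Q2 (φ v) * ρ v) =
      ∑ v : V, ∑ e, D.bd P v e * ((φ v).2 ⬝ᵥ (m e).1) +
      ∑ e, ∑ v : V, D.bd P v e * ((m e).2 ⬝ᵥ (φ v).1) +
      (∑ v : V, ∑ t : F, D.s t v * ((φ v).2 ⬝ᵥ (α t).1) +
      ∑ t : F, ∑ v : V, D.s t v * ((α t).2 ⬝ᵥ (φ v).1)) +
      ∑ v : V, ∑ v' : V, (if v = v' then ta D ρ B v else D.s v v') * ((φ v).2 ⬝ᵥ (φ v').1) := by
    have h1 : ∀ v : V, ∑ e, D.bd P v e * B2 (φ v) (m e) + ∑ p ∈ F, B2 (φ v) (α p) * D.s v p +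
        ∑ l ∈ B, PhiQ (φ v) (φ l) * D.s v l + Q2 (φ v) * ρ v =
        ∑ e, D.bd P v e * ((φ v).2 ⬝ᵥ (m e).1) + ∑ e, D.bd P v e * ((m e).2 ⬝ᵥ (φ v).1) +
        (∑ t : F, D.s t v * ((φ v).2 ⬝ᵥ (α t).1) + ∑ t : F, D.s t v * ((α t).2 ⬝ᵥ (φ v).1)) +
        ∑ v' : V, (if v = v' then ta D ρ B v else D.s v v') * ((φ v).2 ⬝ᵥ (φ v').1) := by
      intro v
      rw [← e2 v]
      have h2 : ∑ p ∈ F, B2 (φ v) (α p) * D.s v p =
          ∑ t : F, D.s t v * ((φ v).2 ⬝ᵥ (α t).1) + ∑ t : F, D.s t v * ((α t).2 ⬝ᵥ (φ v).1) := by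
        rw [← sum_coe_sort F, ← sum_add_distrib]
        refine sum_congr rfl fun t _ => ?_
        have hne : (v : ι) ≠ t := fun h => disjoint_left.1 hFB (hVB v.2) (h ▸ t.2)
        rw [hs v t hne, B2_dot]
        ring
      have h3 : ∑ e, D.bd P v e * B2 (φ v) (m e) =
          ∑ e, D.bd P v e * ((φ v).2 ⬝ᵥ (m e).1) + ∑ e, D.bd P v e * ((m e).2 ⬝ᵥ (φ v).1) := by
        rw [← sum_add_distrib]
        refine sum_congr rfl fun e _ => ?_
        rw [B2_dot]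
        ring
      rw [h2, h3]
      ring
    rw [sum_congr rfl fun v _ => h1 v]
    simp only [sum_add_distrib]
    rw [sum_comm (s := (univ : Finset V)) (t := (univ : Finset E))
      (f := fun v e => D.bd P v e * ((m e).2 ⬝ᵥ (φ v).1)),
      sum_comm (s := (univ : Finset V)) (t := (univ : Finset F))
      (f := fun v t => D.s t v * ((α t).2 ⬝ᵥ (φ v).1))]
  rw [e3]
  unfold RF Dat2.NV Dat2.NB
  simp only [Fintype.sum_sum_type, Matrix.fromBlocks_apply₁₁, Matrix.fromBlocks_apply₁₂,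
    Matrix.fromBlocks_apply₂₁, Matrix.fromBlocks_apply₂₂, Matrix.of_apply, Sum.elim_inl,
    Sum.elim_inr, sum_add_distrib]
  ring

end

end Pool.Agent.Lib.MP_1a91b9_ntQ.M
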