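import Pool.Agent.Lib.MP_1a91b9_ntQ.M.Red
import Pool.Agent.Lib.MP_1a91b9_ntQ.M.MatW

/-!
# MP_1a91b9_nt (quadratic twists of a fixed curve), part M: the fixed rows as a part of the border

`P` is a finite set of primes which contains the fixed primes. The symbols at the primes of `P` are
class characters of the system `D.off P`; so the rows of the fixed primes (`P0` and the active primes
`V0` of the fixed part of `B`) are a part of the border.
-/

set_option autoImplicit false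
set_option linter.unusedSectionVars false

namespace Pool.Agent.Lib.MP_1a91b9_ntQ.M

open Finset Pool.Agent.Lib.MP_1a91b9_ntH Pool.Agent.Lib.MP_1a91b9_ntQ.Da

noncomputable section

variable {ι : Type} [DecidableEq ι] {κ : Type} [Fintype κ] [DecidableEq κ] {E : Type} [Fintype E]
  [DecidableEq E] {Q : Type} [Fintype Q] [DecidableEq Q]

/-- The class vector of the activity character. -/
def c0v (P P0 : Finset ι) (c : κ → ZMod 2) : κ ⊕ P → ZMod 2 :=
  Sum.elim c fun p => if (p : ι) ∈ P0 then 1 else 0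

theorem spB_c0v {P P0 : Finset ι} (h : P0 ⊆ P) (c : κ → ZMod 2) : spB (c0v P P0 c) = P0 := by
  ext q
  rw [mem_spB]
  constructor
  · rintro ⟨h1, h2⟩
    by_contra h3
    exact h2 (if_neg h3)
  · intro hq
    refine ⟨h hq, ?_⟩
    show (if q ∈ P0 then (1 : ZMod 2) else 0) ≠ 0
    rw [if_pos hq]
    exact one_ne_zero

theorem ex1_c0v (D : Dat2 ι κ) {P P0 : Finset ι} (h : P0 ⊆ P) (c : κ → ZMod 2) (q : Off P) :
    (D.off P).ex1 ∅ (c0v P P0 c) q = D.ex1 P0 c q.1 := by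
  rw [ex1_off, up_empty, empty_union, spB_c0v h]
  rfl

/-- The border. -/
def brd (P V0 : Finset ι) {P0 : Finset ι} (r : Q → P0) (P1 : κ → E → ZMod 2) :
    κ ⊕ P → Q ⊕ (V0 ⊕ E) → ZMod 2 :=
  Sum.elim (fun i => Sum.elim (fun _ => 0) (Sum.elim (fun _ => 0) (P1 i)))
    fun b => Sum.elim (fun x => if (b : ι) = r x then 1 else 0)
      (Sum.elim (fun v => if (b : ι) = v then 1 else 0) fun _ => 0)

/-- The corner. -/
def crn (D : Dat2 ι κ) (c : κ → ZMod 2) (P1 : κ → E → ZMod 2) (R1 : Matrix E E (ZMod 2))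
    (V0 : Finset ι) (τ0 : ι → ZMod 2) {P0 : Finset ι} (r : Q → P0) :
    Matrix (Q ⊕ (V0 ⊕ E)) (Q ⊕ (V0 ⊕ E)) (ZMod 2) :=
  (D.NV c P1 R1 V0 τ0 P0).submatrix (Sum.map r id) (Sum.map r id)

theorem sum_ind {P : Finset ι} {x : ι} (hx : x ∈ P) (f : ι → ZMod 2) :
    ∑ b : P, (if (b : ι) = x then (1 : ZMod 2) else 0) * f b = f x := by
  rw [sum_coe_sort P fun b => (if b = x then (1 : ZMod 2) else 0) * f b]
  rw [sum_eq_single x, if_pos rfl, one_mul]
  · intro b _ hb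
    rw [if_neg hb, zero_mul]
  · intro h
    exact absurd hx h

section

variable (D : Dat2 ι κ) {P P0 V0 : Finset ι} (r : Q → P0) (P1 : κ → E → ZMod 2)

theorem bd_inl (hP0 : P0 ⊆ P) (q : Off P) (x : Q) :
    (D.off P).bd (brd P V0 r P1) q (Sum.inl x) = D.s q.1 (r x) := by
  unfold Dat2.bd brd
  rw [Fintype.sum_sum_type]
  simp only [Sum.elim_inl, Sum.elim_inr, zero_mul, sum_const_zero, zero_add]
  exact sum_ind (hP0 (r x).2) fun b => D.s q.1 b

theorem bd_inrl (hV0 : V0 ⊆ P) (q : Off P) (v : V0) :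
    (D.off P).bd (brd P V0 r P1) q (Sum.inr (Sum.inl v)) = D.s q.1 v := by
  unfold Dat2.bd brd
  rw [Fintype.sum_sum_type]
  simp only [Sum.elim_inl, Sum.elim_inr, zero_mul, sum_const_zero, zero_add]
  exact sum_ind (hV0 v.2) fun b => D.s q.1 b

theorem bd_inrr (q : Off P) (e : E) :
    (D.off P).bd (brd P V0 r P1) q (Sum.inr (Sum.inr e)) = D.bd P1 q.1 e := by
  unfold Dat2.bd brd
  rw [Fintype.sum_sum_type]
  simp only [Sum.elim_inl, Sum.elim_inr, zero_mul, sum_const_zero, add_zero]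
  rfl

end

/-- The rows of the new matrix as rows of the old matrix. -/
def phO {P P0 V0 V : Finset ι} {V' : Finset (Off P)} (r : Q → P0) (h0 : V0 ⊆ V)
    (h1 : ∀ q ∈ V', q.1 ∈ V) :
    (∅ : Finset (Off P)) ⊕ (V' ⊕ (Q ⊕ (V0 ⊕ E))) → P0 ⊕ (V ⊕ E) :=
  Sum.elim (fun e => absurd e.2 (notMem_empty _))
    (Sum.elim (fun v => Sum.inr (Sum.inl ⟨v.1.1, h1 v.1 v.2⟩))
      (Sum.elim (fun x => Sum.inl (r x))
        (Sum.elim (fun v => Sum.inr (Sum.inl ⟨v.1, h0 v.2⟩)) fun e => Sum.inr (Sum.inr e))))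

section

variable {P P0 V0 V : Finset ι} {V' : Finset (Off P)} {r : Q → P0} {h0 : V0 ⊆ V}
    {h1 : ∀ q ∈ V', q.1 ∈ V}

theorem phO_inj (hr : Function.Injective r) (hV0 : V0 ⊆ P) :
    Function.Injective (phO (E := E) r h0 h1) := by
  intro i j h
  have hx : ∀ (v : V') (w : V0), v.1.1 ≠ w.1 := fun v w h => v.1.2 (h ▸ hV0 w.2)
  rcases i with i | v | x | w | e
  · exact absurd i.2 (notMem_empty _)
  all_goals
    rcases j with j | v' | x' | w' | e'
    · exact absurd j.2 (notMem_empty _)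
  all_goals
    simp only [phO, Sum.elim_inl, Sum.elim_inr, Sum.inr.injEq, Sum.inl.injEq, Subtype.mk.injEq,
      reduceCtorEq] at h
  · have h2 : v.1 = v'.1 := Subtype.ext h
    rw [Subtype.ext h2]
  · exact absurd h (hx v w')
  · rw [hr h]
  · exact absurd h.symm (hx v' w)
  · rw [Subtype.ext h]
  · rw [h]

theorem phO_inl (p : P0) : (∃ j, phO (E := E) r h0 h1 j = Sum.inl p) ↔ ∃ x, r x = p := by
  constructor
  · rintro ⟨j, hj⟩
    rcases j with j | v' | x' | w' | e'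
    · exact absurd j.2 (notMem_empty _)
    all_goals
      simp only [phO, Sum.elim_inl, Sum.elim_inr, Sum.inl.injEq, reduceCtorEq] at hj
    exact ⟨x', hj⟩
  · rintro ⟨x, rfl⟩
    exact ⟨Sum.inr (Sum.inr (Sum.inl x)), rfl⟩

theorem phO_inr (hV : ∀ v ∈ V, v ∈ V0 ∨ ∃ h : v ∉ P, (⟨v, h⟩ : Off P) ∈ V') (i : V ⊕ E) :
    ∃ j, phO (E := E) r h0 h1 j = Sum.inr i := by
  rcases i with v | e
  · rcases hV v.1 v.2 with h | ⟨h, h2⟩
    · exact ⟨Sum.inr (Sum.inr (Sum.inr (Sum.inl ⟨v.1, h⟩))), rfl⟩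
    · exact ⟨Sum.inr (Sum.inl ⟨⟨v.1, h⟩, h2⟩), rfl⟩
  · exact ⟨Sum.inr (Sum.inr (Sum.inr (Sum.inr e))), rfl⟩

/-- **The new matrix is a submatrix of the old matrix.** -/
theorem NV_off {D : Dat2 ι κ} (hs : D.Sym) (hP0 : P0 ⊆ P) (hV0 : V0 ⊆ P) (c : κ → ZMod 2)
    (c' : κ ⊕ P → ZMod 2) (P1 : κ → E → ZMod 2) (R1 : Matrix E E (ZMod 2))
    {τ τ0 : ι → ZMod 2} {τ' : Off P → ZMod 2} (hτ0 : ∀ v ∈ V0, τ v = τ0 v)
    (hτ' : ∀ v ∈ V', τ v.1 = τ' v) :
    (D.off P).NV c' (brd P V0 r P1) (crn D c P1 R1 V0 τ0 r) V' τ' ∅ =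
      (D.NV c P1 R1 V τ P0).submatrix (phO r h0 h1) (phO r h0 h1) := by
  have hne1 : ∀ (v : V') (x : ι), x ∈ P → v.1.1 ≠ x := fun v x hx h => v.1.2 (h ▸ hx)
  ext i j
  rcases i with i | v | x | w | e
  · exact absurd i.2 (notMem_empty _)
  · -- the row `v`
    rcases j with j | v' | x' | w' | e'
    · exact absurd j.2 (notMem_empty _)
    · show (if v = v' then τ' v else D.s v.1.1 v'.1.1) =
        if (⟨v.1.1, h1 v.1 v.2⟩ : V) = ⟨v'.1.1, h1 v'.1 v'.2⟩ then τ v.1.1 else D.s v.1.1 v'.1.1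
      by_cases h : v = v'
      · subst h
        rw [if_pos rfl, if_pos rfl, hτ' v.1 v.2]
      · rw [if_neg h, if_neg]
        intro h2
        exact h (Subtype.ext (Subtype.ext (Subtype.mk.inj h2)))
    · show (D.off P).bd (brd P V0 r P1) v (Sum.inl x') = D.s (r x') v.1.1
      rw [bd_inl D r P1 hP0]
      exact hs _ _ (hne1 v _ (hP0 (r x').2))
    · show (D.off P).bd (brd P V0 r P1) v (Sum.inr (Sum.inl w')) =
        if (⟨v.1.1, h1 v.1 v.2⟩ : V) = ⟨w'.1, h0 w'.2⟩ then τ v.1.1 else D.s v.1.1 w'.1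
      rw [bd_inrl D r P1 hV0, if_neg]
      intro h2
      exact hne1 v _ (hV0 w'.2) (congrArg Subtype.val h2)
    · exact bd_inrr D r P1 v.1 e'
  · rcases j with j | v' | x' | w' | e'
    · exact absurd j.2 (notMem_empty _)
    · show (D.off P).bd (brd P V0 r P1) v' (Sum.inl x) = D.s (r x) v'.1.1
      rw [bd_inl D r P1 hP0]
      exact hs _ _ (hne1 v' _ (hP0 (r x).2))
    · rfl
    · rfl
    · rfl
  · rcases j with j | v' | x' | w' | e'
    · exact absurd j.2 (notMem_empty _)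
    · show (D.off P).bd (brd P V0 r P1) v' (Sum.inr (Sum.inl w)) =
        if (⟨w.1, h0 w.2⟩ : V) = ⟨v'.1.1, h1 v'.1 v'.2⟩ then τ w.1 else D.s w.1 v'.1.1
      rw [bd_inrl D r P1 hV0, if_neg]
      · exact hs _ _ (hne1 v' _ (hV0 w.2))
      · intro h2
        exact hne1 v' _ (hV0 w.2) (congrArg Subtype.val h2).symm
    · rfl
    · show (if w = w' then τ0 w else D.s w w') =
        if (⟨w.1, h0 w.2⟩ : V) = ⟨w'.1, h0 w'.2⟩ then τ w.1 else D.s w.1 w'.1
      by_cases h : w = w'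
      · subst h
        rw [if_pos rfl, if_pos rfl, hτ0 w.1 w.2]
      · rw [if_neg h, if_neg]
        intro h2
        exact h (Subtype.ext (Subtype.mk.inj h2))
    · rfl
  · rcases j with j | v' | x' | w' | e'
    · exact absurd j.2 (notMem_empty _)
    · exact bd_inrr D r P1 v'.1 e
    · rfl
    · rfl
    · rfl

end

/-! ### The two kinds of criteria -/

section

variable {D : Dat2 ι κ} {P P0 B : Finset ι} {c : κ → ZMod 2} {X : Finset (Off P)}

theorem Va_sub (D : Dat2 ι κ) (c : κ → ZMod 2) (P0 B : Finset ι) (X : Finset (Off P)) :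
    Va D c P0 B ⊆ Va D c P0 (B ∪ up X) := by
  intro q hq
  rw [mem_Va] at hq ⊢
  exact ⟨mem_union_left _ hq.1, hq.2⟩

theorem Va_off (hP0 : P0 ⊆ P) : ∀ q ∈ Va (D.off P) (c0v P P0 c) ∅ X,
    q.1 ∈ Va D c P0 (B ∪ up X) := by
  intro q hq
  rw [mem_Va, ex1_c0v D hP0] at hq
  rw [mem_Va]
  exact ⟨mem_union_right _ (mem_up.2 ⟨q.2, hq.1⟩), hq.2⟩

theorem Va_cov (hP0 : P0 ⊆ P) : ∀ v ∈ Va D c P0 (B ∪ up X), v ∈ Va D c P0 B ∨
    ∃ h : v ∉ P, (⟨v, h⟩ : Off P) ∈ Va (D.off P) (c0v P P0 c) ∅ X := by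
  intro v hv
  rw [mem_Va, mem_union] at hv
  rcases hv.1 with h | h
  · exact Or.inl (mem_Va.2 ⟨h, hv.2⟩)
  · obtain ⟨h1, h2⟩ := mem_up.1 h
    exact Or.inr ⟨h1, mem_Va.2 ⟨h2, (ex1_c0v D hP0 c (⟨v, h1⟩ : Off P)).trans hv.2⟩⟩

variable {P1 : κ → E → ZMod 2} {R1 : Matrix E E (ZMod 2)} {τ τ0 : ι → ZMod 2}
  {ρ : Off P → ZMod 2}

/-- The nonsingular matrices. -/
theorem kW_det (hs : D.Sym) (hP0 : P0 ⊆ P) (hB : B ⊆ P) (hτ0 : ∀ v ∈ Va D c P0 B, τ v = τ0 v)
    (hτ' : ∀ v ∈ Va (D.off P) (c0v P P0 c) ∅ X, τ v.1 = ta (D.off P) ρ X v) :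
    (D.NV c P1 R1 (Va D c P0 (B ∪ up X)) τ P0).det ≠ 0 ↔
      kW (D.off P) (c0v P P0 c) (brd P (Va D c P0 B) (id : P0 → P0) P1)
        (crn D c P1 R1 (Va D c P0 B) τ0 (id : P0 → P0)) ρ ∅ X = 1 := by
  have hV0 : Va D c P0 B ⊆ P := (Va_subset _ _ _ _).trans hB
  unfold kW
  rw [NV_off (h0 := Va_sub D c P0 B X) (h1 := Va_off hP0) hs hP0 hV0 c _ P1 R1 hτ0 hτ',
    kcd_bij, kcd_eq_one]
  refine ⟨phO_inj Function.injective_id hV0, fun i => ?_⟩
  rcases i with p | i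
  · exact (phO_inl p).2 ⟨p, rfl⟩
  · exact phO_inr (Va_cov hP0) i

/-- The kernel generated by `(1, 0, 0)`. -/
theorem kW_ker (hs : D.Sym) (hP0 : P0 ⊆ P) (hB : B ⊆ P) (hτ0 : ∀ v ∈ Va D c P0 B, τ v = τ0 v)
    (hτ' : ∀ v ∈ Va (D.off P) (c0v P P0 c) ∅ X, τ v.1 = ta (D.off P) ρ X v)
    (hR : ∀ e f, R1 e f = R1 f e)
    (hu : (D.NV c P1 R1 (Va D c P0 (B ∪ up X)) τ P0).mulVec
      (Sum.elim (fun _ => 1) (Sum.elim (fun _ => 0) 0)) = 0) {p0 : P0} {r : Q → P0}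
    (hr1 : Function.Injective r) (hr : ∀ p, (∃ x, r x = p) ↔ p ≠ p0) :
    (∀ w, (D.NV c P1 R1 (Va D c P0 (B ∪ up X)) τ P0).mulVec w = 0 →
      w = 0 ∨ w = Sum.elim (fun _ => 1) (Sum.elim (fun _ => 0) 0)) ↔
      kW (D.off P) (c0v P P0 c) (brd P (Va D c P0 B) r P1)
        (crn D c P1 R1 (Va D c P0 B) τ0 r) ρ ∅ X = 1 := by
  have hV0 : Va D c P0 B ⊆ P := (Va_subset _ _ _ _).trans hB
  unfold kW
  rw [NV_off (h0 := Va_sub D c P0 B X) (h1 := Va_off hP0) hs hP0 hV0 c _ P1 R1 hτ0 hτ']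
  symm
  refine kcd_minor (i0 := Sum.inl p0) ?_ hu rfl (phO_inj hr1 hV0) fun i => ?_
  · -- the symmetry
    intro i j
    rcases i with i | v | e
    · rcases j with j | v' | e'
      · show (if i = j then _ else D.s i j) = if j = i then _ else D.s j i
        by_cases h : i = j
        · subst h
          rfl
        · rw [if_neg h, if_neg fun h' => h h'.symm]
          exact hs _ _ fun h' => h (Subtype.ext h')
      · rfl
      · rfl
    · rcases j with j | v' | e'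
      · rfl
      · show (if v = v' then τ v else D.s v v') = if v' = v then τ v' else D.s v' v
        by_cases h : v = v'
        · subst h
          rfl
        · rw [if_neg h, if_neg fun h' => h h'.symm]
          exact hs _ _ fun h' => h (Subtype.ext h')
      · rfl
    · rcases j with j | v' | e'
      · rfl
      · rfl
      · exact hR e e'
  · rcases i with p | i
    · rw [phO_inl, hr, Ne, Ne, Sum.inl.injEq]
    · constructor
      · intro _ h
        exact absurd h (by simp)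
      · intro _
        exact phO_inr (Va_cov hP0) i

end

end

end Pool.Agent.Lib.MP_1a91b9_ntQ.M
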